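import Pool.Agent.MP_03af62_an.Eye.Shoot
import Pool.Agent.MP_03af62_an.Eye.Data

/-! The checked data give approximate solutions, hence the profile of the travelling loop. -/

open Set

namespace Pool.Agent.MP_03af62_an.Eye

theorem norm_ev_le {p : List V} {n : ℤ} (h : (pabs p).le (V.const n) = true) {t : ℝ}
    (ht : t ∈ Icc (0 : ℝ) 1) : ‖ev p t‖ ≤ n := by
  have k : ∀ i, |ev p t i| ≤ n := fun i => by
    have := toE_le h i
    rw [toE_const] at this
    exact (abs_ev_le p ht i).trans this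
  exact (pi_norm_le_iff_of_nonneg ((abs_nonneg _).trans (k 0))).2 k

theorem sc_pos : (0 : ℝ) < sc := by norm_num [sc]

theorem box_le (i : Fin 10) : toE boxV i ≤ sc * (bd i - 1 / 100) := by
  fin_cases i <;> norm_num [toE, boxV, sc, bd]

theorem chkU_sound {u u' : V} {p : List V} (h : chkU u p u' = true) :
    (∀ t ∈ Icc (0 : ℝ) 1, (∀ i, |((sc : ℝ)⁻¹ • ev (u :: p) t) i| ≤ bd i - 1 / 100) ∧
      ‖(4 : ℝ) • (sc : ℝ)⁻¹ • dv (u :: p) t -
        B ((sc : ℝ)⁻¹ • ev (u :: p) t) ((sc : ℝ)⁻¹ • ev (u :: p) t)‖ ≤ 1 / 10 ^ 22) ∧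
    toE u' = ev (u :: p) 1 := by
  simp only [chkU, Bool.and_eq_true, decide_eq_true_eq] at h
  obtain ⟨⟨h1, h2⟩, h3⟩ := h
  have hs := sc_pos
  refine ⟨fun t ht => ⟨fun i => ?_, ?_⟩, by rw [ev_one, h3]⟩
  · rw [Pi.smul_apply, smul_eq_mul, abs_mul, abs_of_pos (inv_pos.2 hs), inv_mul_le_iff₀ hs]
    exact (abs_ev_le _ ht i).trans ((toE_le h1 i).trans (box_le i))
  · have k := norm_ev_le h2 ht
    rw [ev_padd, ev_pmul, ev_pmul, ev_pbil, ev_der u] at k
    have e : (4 : ℝ) • (sc : ℝ)⁻¹ • dv (u :: p) t -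
        B ((sc : ℝ)⁻¹ • ev (u :: p) t) ((sc : ℝ)⁻¹ • ev (u :: p) t) =
        ((sc : ℝ)⁻¹ * (sc : ℝ)⁻¹) • (((4 * sc : ℤ) : ℝ) • dv (u :: p) t +
          ((-1 : ℤ) : ℝ) • B (ev (u :: p) t) (ev (u :: p) t)) := by
      rw [B_smul_left, B_smul_right]
      match_scalars
      · field_simp
      · ring
    rw [e, norm_smul, Real.norm_of_nonneg (by positivity)]
    refine (mul_le_mul_of_nonneg_left k (by positivity)).trans ?_
    norm_num [sc]

theorem chkW_sound {w w' : V} {q p : List V} (h : chkW q w p w' = true) :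
    (∀ t ∈ Icc (0 : ℝ) 1, ‖(sc : ℝ)⁻¹ • ev (w :: p) t‖ ≤ 2 ∧
      ‖(4 : ℝ) • (sc : ℝ)⁻¹ • dv (w :: p) t -
        (B ((sc : ℝ)⁻¹ • ev q t) ((sc : ℝ)⁻¹ • ev (w :: p) t) +
          B ((sc : ℝ)⁻¹ • ev (w :: p) t) ((sc : ℝ)⁻¹ • ev q t))‖ ≤ 4 / 10 ^ 8) ∧
    toE w' = ev (w :: p) 1 := by
  simp only [chkW, Bool.and_eq_true, decide_eq_true_eq] at h
  obtain ⟨⟨h1, h2⟩, h3⟩ := h
  have hs := sc_pos
  refine ⟨fun t ht => ⟨?_, ?_⟩, by rw [ev_one, h3]⟩
  · rw [norm_smul, Real.norm_of_nonneg (by positivity), inv_mul_le_iff₀ hs]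
    refine (norm_ev_le h1 ht).trans (le_of_eq ?_)
    push_cast
    ring
  · have k := norm_ev_le h2 ht
    rw [ev_padd, ev_pmul, ev_pmul, ev_padd, ev_pbil, ev_pbil, ev_der w] at k
    have e : (4 : ℝ) • (sc : ℝ)⁻¹ • dv (w :: p) t -
        (B ((sc : ℝ)⁻¹ • ev q t) ((sc : ℝ)⁻¹ • ev (w :: p) t) +
          B ((sc : ℝ)⁻¹ • ev (w :: p) t) ((sc : ℝ)⁻¹ • ev q t)) =
        ((sc : ℝ)⁻¹ * (sc : ℝ)⁻¹) • (((4 * sc : ℤ) : ℝ) • dv (w :: p) t +
          ((-1 : ℤ) : ℝ) • (B (ev q t) (ev (w :: p) t) + B (ev (w :: p) t) (ev q t))) := by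
      rw [B_smul_left, B_smul_right, B_smul_left, B_smul_right]
      match_scalars
      · field_simp
      · ring
      · ring
    rw [e, norm_smul, Real.norm_of_nonneg (by positivity)]
    refine (mul_le_mul_of_nonneg_left k (by positivity)).trans ?_
    norm_num [sc]

def St.w (s : St) : Fin 3 → V := ![s.w0, s.w1, s.w2]

def pU (j : ℕ) : List V := (st j).u :: tailU (st j).u

def pW (i : Fin 3) (j : ℕ) : List V := (st j).w i :: tailW (pU j) ((st j).w i)

theorem chk_U {j : ℕ} (hj : j < 12) : chkU (st j).u (tailU (st j).u) (st (j + 1)).u = true := by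
  have := chk_all j hj
  simp only [chk, chk3, Bool.and_eq_true] at this
  exact this.1.1.1

theorem chk_W (i : Fin 3) {j : ℕ} (hj : j < 12) :
    chkW (pU j) ((st j).w i) (tailW (pU j) ((st j).w i)) ((st (j + 1)).w i) = true := by
  have := chk_all j hj
  simp only [chk, chk3, Bool.and_eq_true] at this
  fin_cases i
  · exact this.1.1.2
  · exact this.1.2
  · exact this.2

theorem U_zero (j : ℕ) : ev (pU j) 0 = toE (st j).u := ev_zero _ _

theorem W_zero (i : Fin 3) (j : ℕ) : ev (pW i j) 0 = toE ((st j).w i) := ev_zero _ _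

theorem approx : Approx (fun j t => (sc : ℝ)⁻¹ • ev (pU j) t) (fun j t => (sc : ℝ)⁻¹ • dv (pU j) t)
    (fun i j t => (sc : ℝ)⁻¹ • ev (pW i j) t) (fun i j t => (sc : ℝ)⁻¹ • dv (pW i j) t) where
  dU j t := (hasDerivAt_ev (pU j) t).const_smul (sc : ℝ)⁻¹
  dW i j t := (hasDerivAt_ev (pW i j) t).const_smul (sc : ℝ)⁻¹
  cU j hj := by rw [U_zero, (chkU_sound (chk_U hj)).2, pU]
  cW i j hj := by rw [W_zero, (chkW_sound (chk_W i hj)).2, pW]
  box j hj t ht := ((chkU_sound (chk_U hj)).1 t ht).1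
  defU j hj t ht := ((chkU_sound (chk_U hj)).1 t ht).2
  bW i j hj t ht := ((chkW_sound (chk_W i hj)).1 t ht).1
  defW i j hj t ht := ((chkW_sound (chk_W i hj)).1 t ht).2
  i0 := by norm_num [U_zero, st, st0, toE]
  i1 := by norm_num [U_zero, st, st0, toE, sc]
  i3 := by simp [U_zero, st, st0, toE]
  i6 := by simp [U_zero, st, st0, toE]
  i7 := by simp [U_zero, st, st0, toE, sc]
  i9 := by simp [U_zero, st, st0, toE]
  i5 := by simp [U_zero, st, st0, toE, sc]; norm_num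
  iW i := by fin_cases i <;> simp [W_zero, st, st0, toE, St.w]
  e1 := by simp [U_zero, st, st12, toE, sc]; norm_num
  e3 := by simp [U_zero, st, st12, toE, sc]; norm_num
  r0 := by simp [U_zero, st, st12, toE, sc]; norm_num
  r1 := by simp [U_zero, st, st12, toE, sc]; norm_num
  r2 := by simp [U_zero, st, st0, st12, toE, sc, abs_le]; norm_num
  j0 i := by fin_cases i <;> simp [W_zero, st, st12, toE, sc, St.w, abs_le] <;> norm_num
  j1 i := by fin_cases i <;> simp [W_zero, st, st12, toE, sc, St.w, abs_le] <;> norm_num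
  j2 i := by
    fin_cases i <;> simp [U_zero, W_zero, st, st0, st12, toE, sc, St.w, abs_le] <;> norm_num

end Pool.Agent.MP_03af62_an.Eye
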