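import Pool.Agent.MP_03af62_an.Eye.Cert
import Pool.Agent.Mg.F03af62.G1917cf

/-! The travelling loop as a curve. -/

open Set
open scoped ContDiff

namespace Pool.Agent.MP_03af62_an.Eye

structure Drop (c μ f : ℝ) (a b k p q : ℝ → ℝ) (Z : ℝ → ℂ) : Prop where
  da : ∀ s ∈ Icc (-3 : ℝ) 3, HasDerivAt a (-(k s * b s)) s
  db : ∀ s ∈ Icc (-3 : ℝ) 3, HasDerivAt b (k s * a s) s
  dk : ∀ s ∈ Icc (-3 : ℝ) 3, HasDerivAt k (q s * a s - p s * b s) s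
  dp : ∀ s ∈ Icc (-3 : ℝ) 3, HasDerivAt p (-(c / 2 * b s * b s)) s
  dq : ∀ s ∈ Icc (-3 : ℝ) 3, HasDerivAt q (c / 2 * b s * a s) s
  dZ : ∀ s ∈ Icc (-3 : ℝ) 3, HasDerivAt Z ((a s : ℂ) + b s * Complex.I) s
  unit : ∀ s ∈ Icc (-3 : ℝ) 3, a s ^ 2 + b s ^ 2 = 1
  first : ∀ s ∈ Icc (-3 : ℝ) 3, k s ^ 2 - 2 * (p s * a s + q s * b s) = μ
  k3 : k 3 = 0
  k3' : k (-3) = 0
  Z3 : Z 3 = 0
  Z3' : Z (-3) = 0
  pull : 2 * (p (-3) - p 3) = f
  qq : q (-3) = q 3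
  b3 : b (-3) ≠ 0

theorem const_of_zero {f : ℝ → ℝ} (h : ∀ s ∈ Icc (-3 : ℝ) 3, HasDerivAt f 0 s) {s : ℝ}
    (hs : s ∈ Icc (-3 : ℝ) 3) : f s = f 0 := by
  have k := constant_of_has_deriv_right_zero (f := f) (a := -3) (b := 3)
    (fun x hx => (h x hx).continuousAt.continuousWithinAt)
    (fun x hx => (h x (Ico_subset_Icc_self hx)).hasDerivWithinAt)
  rw [k s hs, k 0 (by norm_num)]

theorem exists_drop : ∃ (c μ : ℝ) (a b k p q : ℝ → ℝ) (Z : ℝ → ℂ), c < 0 ∧ 0 < μ ∧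
    Drop c μ (-μ) a b k p q Z := by
  obtain ⟨u, h, u0, u1, u3, u6, u7, u5, e2, e9, e3, p3, p1⟩ := approx.exists_loop
  have d : ∀ s ∈ Icc (-3 : ℝ) 3, ∀ i, HasDerivAt (fun s => u s i) (B (u s) (u s) i) s :=
    fun s hs => hasDerivAt_pi.1 (h s hs).1
  have da : ∀ s ∈ Icc (-3 : ℝ) 3, HasDerivAt (fun s => u s 0) (-(u s 2 * u s 1)) s :=
    fun s hs => d s hs 0
  have db : ∀ s ∈ Icc (-3 : ℝ) 3, HasDerivAt (fun s => u s 1) (u s 2 * u s 0) s :=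
    fun s hs => d s hs 1
  have dk : ∀ s ∈ Icc (-3 : ℝ) 3, HasDerivAt (fun s => u s 2) (u s 4 * u s 0 - u s 3 * u s 1) s :=
    fun s hs => d s hs 2
  have dp : ∀ s ∈ Icc (-3 : ℝ) 3, HasDerivAt (fun s => u s 3) (-(u s 5 * u s 1)) s :=
    fun s hs => d s hs 3
  have dq : ∀ s ∈ Icc (-3 : ℝ) 3, HasDerivAt (fun s => u s 4) (u s 5 * u s 0) s :=
    fun s hs => d s hs 4
  have dg : ∀ s ∈ Icc (-3 : ℝ) 3, HasDerivAt (fun s => u s 5) (u s 2 * u s 6) s :=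
    fun s hs => d s hs 5
  have dh : ∀ s ∈ Icc (-3 : ℝ) 3, HasDerivAt (fun s => u s 6) (-(u s 2 * u s 5)) s :=
    fun s hs => d s hs 6
  have dx : ∀ s ∈ Icc (-3 : ℝ) 3, HasDerivAt (fun s => u s 8) (u s 7 * u s 0) s :=
    fun s hs => d s hs 8
  have dy : ∀ s ∈ Icc (-3 : ℝ) 3, HasDerivAt (fun s => u s 9) (u s 7 * u s 1) s :=
    fun s hs => d s hs 9
  have ho : ∀ s ∈ Icc (-3 : ℝ) 3, u s 7 = 1 := fun s hs => by
    rw [← u7]
    exact const_of_zero (f := fun s => u s 7) (fun s hs => d s hs 7) hs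
  have hu : ∀ s ∈ Icc (-3 : ℝ) 3, u s 0 ^ 2 + u s 1 ^ 2 = 1 := fun s hs => by
    have := const_of_zero (f := fun s => u s 0 ^ 2 + u s 1 ^ 2) (fun s hs =>
      (((da s hs).pow 2).add ((db s hs).pow 2)).congr_deriv (by norm_num; ring)) hs
    rw [this, u0, u1]; norm_num
  have hg : ∀ s ∈ Icc (-3 : ℝ) 3, u s 5 = u 0 5 * u s 1 := fun s hs => by
    have := const_of_zero
      (f := fun s => (u s 5 - u 0 5 * u s 1) ^ 2 + (u s 6 - u 0 5 * u s 0) ^ 2) (fun s hs =>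
      ((((dg s hs).sub ((db s hs).const_mul (u 0 5))).pow 2).add
        (((dh s hs).sub ((da s hs).const_mul (u 0 5))).pow 2)).congr_deriv (by norm_num; ring)) hs
    rw [u0, u1, u6] at this
    nlinarith [sq_nonneg (u s 5 - u 0 5 * u s 1), sq_nonneg (u s 6 - u 0 5 * u s 0)]
  have hf : ∀ s ∈ Icc (-3 : ℝ) 3,
      u s 2 ^ 2 - 2 * (u s 3 * u s 0 + u s 4 * u s 1) = 4 * u 3 3 := fun s hs => by
    have := const_of_zero (f := fun s => u s 2 ^ 2 - 2 * (u s 3 * u s 0 + u s 4 * u s 1))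
      (fun s hs => (((dk s hs).pow 2).sub ((((dp s hs).mul (da s hs)).add
        ((dq s hs).mul (db s hs))).const_mul 2)).congr_deriv (by norm_num; ring)) hs
    rw [this, u0, u1, e3]; ring
  have sy : ∀ i, u (-3) i = sg i * u 3 i := fun i => congrFun (h 3 (by norm_num)).2 i
  have s1 : u (-3) 1 = 1 * u 3 1 := sy 1
  have s2 : u (-3) 2 = 1 * u 3 2 := sy 2
  have s3 : u (-3) 3 = -1 * u 3 3 := sy 3
  have s4 : u (-3) 4 = 1 * u 3 4 := sy 4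
  have s8 : u (-3) 8 = 1 * u 3 8 := sy 8
  have s9 : u (-3) 9 = -1 * u 3 9 := sy 9
  refine ⟨2 * u 0 5, 4 * u 3 3, fun s => u s 0, fun s => u s 1, fun s => u s 2, fun s => u s 3,
    fun s => u s 4, fun s => ((u s 8 - u 3 8 : ℝ) : ℂ) + (u s 9 : ℝ) * Complex.I, by linarith,
    by linarith, da, db, dk, fun s hs => (dp s hs).congr_deriv ?_,
    fun s hs => (dq s hs).congr_deriv ?_, fun s hs => ?_, hu, hf, e2, by linarith, ?_, ?_,
    by linarith, by linarith, by linarith⟩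
  · rw [hg s hs]; ring
  · rw [hg s hs]; ring
  · have := ((dx s hs).sub_const (u 3 8)).ofReal_comp.add ((dy s hs).ofReal_comp.mul_const Complex.I)
    rw [ho s hs, one_mul, one_mul] at this
    exact this
  · simp [e9]
  · simp [s8, s9, e9]

namespace Drop

variable {c μ f : ℝ} {a b k p q : ℝ → ℝ} {Z : ℝ → ℂ} (P : Drop c μ f a b k p q Z)
include P

theorem mirror : Drop (-c) μ (-f) (fun s => -a s) b (fun s => -k s) (fun s => -p s) q
    (fun s => -(starRingEnd ℂ) (Z s)) := by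
  refine ⟨fun s hs => (P.da s hs).neg.congr_deriv (by ring),
    fun s hs => (P.db s hs).congr_deriv (by ring), fun s hs => (P.dk s hs).neg.congr_deriv (by ring),
    fun s hs => (P.dp s hs).neg.congr_deriv (by ring),
    fun s hs => (P.dq s hs).congr_deriv (by ring), fun s hs => ?_,
    fun s hs => by linear_combination P.unit s hs, fun s hs => by linear_combination P.first s hs,
    by simp [P.k3], by simp [P.k3'], by simp [P.Z3], by simp [P.Z3'],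
    by linear_combination -P.pull, P.qq, P.b3⟩
  have h1 := (Complex.conjCLE.toContinuousLinearMap.hasFDerivAt.comp_hasDerivAt s (P.dZ s hs)).neg
  refine HasDerivAt.congr_deriv h1 ?_
  simp [add_comm]

theorem smooth : ContDiffOn ℝ ∞ Z (Icc (-3) 3) := by
  let F : ℝ → (ℝ × ℝ × ℝ × ℝ × ℝ × ℂ) → (ℝ × ℝ × ℝ × ℝ × ℝ × ℂ) := fun _ y =>
    (-(y.2.2.1 * y.2.1), y.2.2.1 * y.1, y.2.2.2.2.1 * y.1 - y.2.2.2.1 * y.2.1,
      -(c / 2 * y.2.1 * y.2.1), c / 2 * y.2.1 * y.1, (y.1 : ℂ) + y.2.1 * Complex.I)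
  have hF : ContDiff ℝ ∞ (Function.uncurry F) := by
    have h1 : ContDiff ℝ ∞ (fun y : ℝ × (ℝ × ℝ × ℝ × ℝ × ℝ × ℂ) => ((y.2.1 : ℝ) : ℂ)) :=
      Complex.ofRealCLM.contDiff.comp (by fun_prop)
    have h2 : ContDiff ℝ ∞ (fun y : ℝ × (ℝ × ℝ × ℝ × ℝ × ℝ × ℂ) => ((y.2.2.1 : ℝ) : ℂ)) :=
      Complex.ofRealCLM.contDiff.comp (by fun_prop)
    exact ContDiff.prodMk (by fun_prop) (ContDiff.prodMk (by fun_prop)
      (ContDiff.prodMk (by fun_prop) (ContDiff.prodMk (by fun_prop) (ContDiff.prodMk (by fun_prop)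
        (h1.add (h2.mul contDiff_const))))))
  have key : ContDiffOn ℝ ((⊤ : ℕ∞) : WithTop ℕ∞) (fun s => (a s, b s, k s, p s, q s, Z s))
      (Icc (-3) 3) := by
    apply ODE.contDiffOn_enat_Icc_of_hasDerivWithinAt (f := F) (u := univ) hF.contDiffOn
    · intro s hs
      exact ((P.da s hs).prodMk ((P.db s hs).prodMk ((P.dk s hs).prodMk ((P.dp s hs).prodMk
        ((P.dq s hs).prodMk (P.dZ s hs)))))).hasDerivWithinAt
    · exact mapsTo_univ _ _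
  exact key.snd.snd.snd.snd.snd

end Drop

/-- translate of a curve -/
def sh (z : ℂ) (G : ℝ → ℂ) (x : ℝ) : ℂ := z + G x

/-- rescaled profile on `[0,1]` -/
noncomputable def sca (l : ℝ) (Z : ℝ → ℂ) (x : ℝ) : ℂ := l • Z (6 * x - 3)

theorem mem3 {x : ℝ} (hx : x ∈ Icc (0 : ℝ) 1) : 6 * x - 3 ∈ Icc (-3 : ℝ) 3 :=
  ⟨by linarith [hx.1], by linarith [hx.2]⟩

theorem dW6 {F : Type} [NormedAddCommGroup F] [NormedSpace ℝ F] {g G : ℝ → F} {G' : F} {x : ℝ}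
    (hx : x ∈ Icc (0 : ℝ) 1) (h : ∀ y ∈ Icc (0 : ℝ) 1, g y = G (6 * y - 3))
    (hG : HasDerivAt G G' (6 * x - 3)) : derivWithin g (Icc 0 1) x = (6 : ℝ) • G' := by
  have h1 : HasDerivAt (fun y : ℝ => 6 * y - 3) 6 x := by
    simpa using ((hasDerivAt_id x).const_mul 6).sub_const 3
  exact dW_eq hx h (hG.scomp x h1)

structure Loop (v m f : ℝ) (G : ℝ → ℂ) : Prop where
  smooth : ContDiffOn ℝ ∞ G (Icc 0 1)
  ends : ∀ b, G (pt b) = 0
  reg : ∀ z, ∀ x ∈ Icc (0 : ℝ) 1, derivWithin (sh z G) (Icc 0 1) x ≠ 0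
  curv0 : ∀ z b, curv (sh z G) (pt b) = 0
  inn : ∀ z, ∀ x ∈ Icc (0 : ℝ) 1, inner ℝ (v : ℂ) (nrm (sh z G) x) = vel m (sh z G) x
  frc : ∀ z, force m (sh z G) 0 - force m (sh z G) 1 = (f : ℂ)
  nre : ∀ z, (nrm (sh z G) 0).re ≠ 0
  tan : ∀ z z' b, ds (sh z G) (sh z G) (pt b) = ds (sh z' G) (sh z' G) (pt b)

namespace Drop

variable {c μ f : ℝ} {a b k p q : ℝ → ℝ} {Z : ℝ → ℂ} (P : Drop c μ f a b k p q Z) {l : ℝ}
  (hl : 0 < l) (z : ℂ)
include P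

theorem hasD {x : ℝ} (hx : x ∈ Icc (0 : ℝ) 1) : HasDerivAt (fun s => z + l • Z s)
    (l • ((a (6 * x - 3) : ℂ) + b (6 * x - 3) * Complex.I)) (6 * x - 3) :=
  ((P.dZ _ (mem3 hx)).const_smul l).const_add z

include hl

theorem speed {x : ℝ} (hx : x ∈ Icc (0 : ℝ) 1) :
    ‖derivWithin (sh z (sca l Z)) (Icc 0 1) x‖ = 6 * l := by
  rw [dW6 (g := sh z (sca l Z)) (G := fun s => z + l • Z s) hx (fun _ _ => rfl) (P.hasD z hx),
    norm_smul, norm_smul,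
    Complex.norm_add_mul_I, P.unit _ (mem3 hx), Real.norm_of_nonneg hl.le]
  simp

theorem dsl {F : Type} [NormedAddCommGroup F] [NormedSpace ℝ F] {g G : ℝ → F} {G' : F} {x : ℝ}
    (hx : x ∈ Icc (0 : ℝ) 1) (h : ∀ y ∈ Icc (0 : ℝ) 1, g y = G (6 * y - 3))
    (hG : HasDerivAt G G' (6 * x - 3)) : ds (sh z (sca l Z)) g x = l⁻¹ • G' := by
  unfold ds
  rw [P.speed hl z hx, dW6 hx h hG, smul_smul]
  congr 1
  field_simp

theorem tan {x : ℝ} (hx : x ∈ Icc (0 : ℝ) 1) : ds (sh z (sca l Z)) (sh z (sca l Z)) x =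
    (a (6 * x - 3) : ℂ) + b (6 * x - 3) * Complex.I := by
  rw [P.dsl hl z (g := sh z (sca l Z)) (G := fun s => z + l • Z s) hx (fun _ _ => rfl)
    (P.hasD z hx), smul_smul,
    inv_mul_cancel₀ hl.ne', one_smul]

theorem nor {x : ℝ} (hx : x ∈ Icc (0 : ℝ) 1) : nrm (sh z (sca l Z)) x =
    (-b (6 * x - 3) : ℝ) + a (6 * x - 3) * Complex.I := by
  unfold nrm
  rw [P.tan hl z hx]
  apply Complex.ext <;> simp

theorem cur {x : ℝ} (hx : x ∈ Icc (0 : ℝ) 1) :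
    curv (sh z (sca l Z)) x = l⁻¹ * k (6 * x - 3) := by
  unfold curv
  have h1 := (P.da _ (mem3 hx)).ofReal_comp.add ((P.db _ (mem3 hx)).ofReal_comp.mul_const Complex.I)
  rw [P.dsl hl z (G := fun s => (a s : ℂ) + b s * Complex.I) hx (fun y hy => P.tan hl z hy) h1,
    P.nor hl z hx, inner_c]
  simp only [Complex.smul_re, Complex.smul_im, Complex.add_re, Complex.add_im, Complex.mul_re,
    Complex.mul_im, Complex.I_re, Complex.I_im, Complex.ofReal_re, Complex.ofReal_im, smul_eq_mul]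
  linear_combination (l⁻¹ * k (6 * x - 3)) * P.unit _ (mem3 hx)

theorem dcur {x : ℝ} (hx : x ∈ Icc (0 : ℝ) 1) : ds (sh z (sca l Z)) (curv (sh z (sca l Z))) x =
    l⁻¹ * (l⁻¹ * (q (6 * x - 3) * a (6 * x - 3) - p (6 * x - 3) * b (6 * x - 3))) :=
  P.dsl hl z (G := fun s => l⁻¹ * k s) hx (fun _ hy => P.cur hl z hy)
    ((P.dk _ (mem3 hx)).const_mul l⁻¹)

theorem velo {x : ℝ} (hx : x ∈ Icc (0 : ℝ) 1) :
    vel (l⁻¹ ^ 2 * μ) (sh z (sca l Z)) x = -(l⁻¹ ^ 3 * c * b (6 * x - 3)) := by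
  unfold vel
  have hs := mem3 hx
  have h1 := ((((P.dq _ hs).mul (P.da _ hs)).sub ((P.dp _ hs).mul (P.db _ hs))).const_mul
    l⁻¹).const_mul l⁻¹
  rw [P.dsl hl z (G := fun s => l⁻¹ * (l⁻¹ * (q s * a s - p s * b s))) hx
    (fun y hy => P.dcur hl z hy) h1, P.cur hl z hx, smul_eq_mul]
  linear_combination (-(l⁻¹ ^ 3 * k (6 * x - 3))) * P.first _ hs -
    l⁻¹ ^ 3 * c * b (6 * x - 3) * P.unit _ hs

theorem forc {x : ℝ} (hx : x ∈ Icc (0 : ℝ) 1) (hk : k (6 * x - 3) = 0) :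
    force (l⁻¹ ^ 2 * μ) (sh z (sca l Z)) x =
      (l⁻¹ ^ 2 * 2 * p (6 * x - 3) : ℝ) + (l⁻¹ ^ 2 * 2 * q (6 * x - 3) : ℝ) * Complex.I := by
  unfold force
  rw [P.dcur hl z hx, P.nor hl z hx, P.tan hl z hx]
  have h2 := P.first _ (mem3 hx)
  have h3 := P.unit _ (mem3 hx)
  rw [hk] at h2
  apply Complex.ext
  · simp only [Complex.sub_re, Complex.smul_re, Complex.add_re, Complex.mul_re, Complex.I_re,
      Complex.I_im, Complex.ofReal_re, Complex.ofReal_im, smul_eq_mul]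
    linear_combination (l⁻¹ ^ 2 * a (6 * x - 3)) * h2 + l⁻¹ ^ 2 * 2 * p (6 * x - 3) * h3
  · simp only [Complex.sub_im, Complex.smul_im, Complex.add_im, Complex.mul_im, Complex.I_re,
      Complex.I_im, Complex.ofReal_re, Complex.ofReal_im, smul_eq_mul]
    linear_combination (l⁻¹ ^ 2 * b (6 * x - 3)) * h2 + l⁻¹ ^ 2 * 2 * q (6 * x - 3) * h3

theorem loop : Loop (l⁻¹ ^ 3 * c) (l⁻¹ ^ 2 * μ) (l⁻¹ ^ 2 * f) (sca l Z) := by
  have m0 : (6 : ℝ) * 0 - 3 = -3 := by norm_num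
  have m1 : (6 : ℝ) * 1 - 3 = 3 := by norm_num
  refine ⟨?_, fun e => ?_, fun z x hx h => ?_, fun z e => ?_, fun z x hx => ?_, fun z => ?_,
    fun z => ?_, fun z z' e => ?_⟩
  · exact (P.smooth.comp (f := fun x : ℝ => 6 * x - 3) (by fun_prop)
      (fun x hx => mem3 hx)).const_smul l
  · cases e
    · rw [pt_false, sca, m0, P.Z3', smul_zero]
    · rw [pt_true, sca, m1, P.Z3, smul_zero]
  · have := P.speed hl z hx
    rw [h, norm_zero] at this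
    linarith
  · rw [P.cur hl z (pt_mem e)]
    cases e
    · rw [pt_false, m0, P.k3', mul_zero]
    · rw [pt_true, m1, P.k3, mul_zero]
  · rw [P.velo hl z hx, P.nor hl z hx, inner_c]
    simp only [Complex.add_re, Complex.mul_re, Complex.I_re, Complex.I_im, Complex.ofReal_re,
      Complex.ofReal_im]
    ring
  · rw [P.forc hl z zero_mem01 (by rw [m0, P.k3']), P.forc hl z one_mem01 (by rw [m1, P.k3]), m0,
      m1, P.qq, ← P.pull]
    push_cast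
    ring
  · rw [P.nor hl z zero_mem01, m0]
    simpa using P.b3
  · rw [P.tan hl z (pt_mem e), P.tan hl z' (pt_mem e)]

end Drop

theorem exists_loops {μ : ℝ} (hμ : 0 < μ) : ∃ (v : ℝ) (G H : ℝ → ℂ), 0 < v ∧ Loop v μ μ G ∧
    Loop (-v) μ (-μ) H := by
  obtain ⟨c, m, a, b, k, p, q, Z, hc, hm, P⟩ := exists_drop
  have hl : 0 < √(m / μ) := Real.sqrt_pos.2 (div_pos hm hμ)
  have e : (√(m / μ))⁻¹ ^ 2 * m = μ := by
    rw [inv_pow, Real.sq_sqrt (div_pos hm hμ).le]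
    field_simp
  have h1 := P.loop hl
  have h2 := P.mirror.loop hl
  rw [mul_neg, e] at h1
  rw [neg_neg, e] at h2
  refine ⟨(√(m / μ))⁻¹ ^ 3 * -c, _, sca (√(m / μ)) Z, mul_pos (by positivity) (by linarith), h2, ?_⟩
  rwa [mul_neg, neg_neg]

end Pool.Agent.MP_03af62_an.Eye
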