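import Pool.Agent.MP_03af62_an.Eye.Poly

/-! The truncated vector field: bounds, global solutions, reflection symmetry, Gronwall chain. -/

open Set Metric

namespace Pool.Agent.MP_03af62_an.Eye

noncomputable def bd : E := ![5 / 4, 5 / 4, 7 / 4, 1 / 2, 1, 1 / 2, 1 / 2, 5 / 4, 3, 2]

def Box (u : E) : Prop := ∀ i, |u i| ≤ bd i

theorem B_sub_left (x y z : E) : B (x - y) z = B x z - B y z := by
  funext i; fin_cases i <;> simp [B] <;> ring

theorem B_sub_right (x y z : E) : B x (y - z) = B x y - B x z := by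
  funext i; fin_cases i <;> simp [B] <;> ring

theorem amul {x y p q : ℝ} (hx : |x| ≤ p) (hy : |y| ≤ q) : -(p * q) ≤ x * y ∧ x * y ≤ p * q := by
  rw [← abs_le, abs_mul]
  exact mul_le_mul hx hy (abs_nonneg _) ((abs_nonneg _).trans hx)

theorem norm_B_le (u v : E) : ‖B u v‖ ≤ 2 * (‖u‖ * ‖v‖) := by
  have h : ∀ i j, -(‖u‖ * ‖v‖) ≤ u i * v j ∧ u i * v j ≤ ‖u‖ * ‖v‖ := fun i j =>
    amul (norm_le_pi_norm u i) (norm_le_pi_norm v j)
  have h0 : 0 ≤ ‖u‖ * ‖v‖ := by positivity
  refine (pi_norm_le_iff_of_nonneg (by positivity)).2 fun i => ?_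
  rw [Real.norm_eq_abs, abs_le]
  fin_cases i <;> simp only [B] <;> simp
  · constructor <;> linarith [h 2 1]
  · constructor <;> linarith [h 2 0]
  · constructor <;> linarith [h 4 0, h 3 1]
  · constructor <;> linarith [h 5 1]
  · constructor <;> linarith [h 5 0]
  · constructor <;> linarith [h 2 6]
  · constructor <;> linarith [h 2 5]
  · positivity
  · constructor <;> linarith [h 7 0]
  · constructor <;> linarith [h 7 1]

theorem norm_BB_le {u v : E} (hu : Box u) (hv : Box v) (w : E) :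
    ‖B u w + B w v‖ ≤ 4 * ‖w‖ := by
  have h : ∀ i j, -(bd i * ‖w‖) ≤ u i * w j ∧ u i * w j ≤ bd i * ‖w‖ := fun i j =>
    amul (hu i) (norm_le_pi_norm w j)
  have g : ∀ i j, -(‖w‖ * bd j) ≤ w i * v j ∧ w i * v j ≤ ‖w‖ * bd j := fun i j =>
    amul (norm_le_pi_norm w i) (hv j)
  have h0 := norm_nonneg w
  have b0 : bd 0 = 5 / 4 := rfl
  have b1 : bd 1 = 5 / 4 := rfl
  have b2 : bd 2 = 7 / 4 := rfl
  have b3 : bd 3 = 1 / 2 := rfl
  have b4 : bd 4 = 1 := rfl
  have b5 : bd 5 = 1 / 2 := rfl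
  have b6 : bd 6 = 1 / 2 := rfl
  have b7 : bd 7 = 5 / 4 := rfl
  refine (pi_norm_le_iff_of_nonneg (by positivity)).2 fun i => ?_
  rw [Real.norm_eq_abs, abs_le]
  fin_cases i <;> simp only [B] <;> simp
  · have := h 2 1; have := g 2 1; rw [b1, b2] at *; constructor <;> linarith
  · have := h 2 0; have := g 2 0; rw [b0, b2] at *; constructor <;> linarith
  · have := h 4 0; have := g 4 0; have := h 3 1; have := g 3 1
    rw [b0, b1, b3, b4] at *; constructor <;> linarith
  · have := h 5 1; have := g 5 1; rw [b1, b5] at *; constructor <;> linarith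
  · have := h 5 0; have := g 5 0; rw [b0, b5] at *; constructor <;> linarith
  · have := h 2 6; have := g 2 6; rw [b2, b6] at *; constructor <;> linarith
  · have := h 2 5; have := g 2 5; rw [b2, b5] at *; constructor <;> linarith
  · have := h 7 0; have := g 7 0; rw [b0, b7] at *; constructor <;> linarith
  · have := h 7 1; have := g 7 1; rw [b1, b7] at *; constructor <;> linarith

theorem bd_nonneg (i : Fin 10) : 0 ≤ bd i := by
  fin_cases i <;> simp [bd] <;> norm_num

theorem bd_le (i : Fin 10) : bd i ≤ 3 := by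
  fin_cases i <;> simp [bd] <;> norm_num

/-- projection onto the box -/
noncomputable def cl (x : E) : E := fun i => max (-bd i) (min (bd i) (x i))

theorem cl_box (x : E) : Box (cl x) := fun i =>
  abs_le.2 ⟨le_max_left _ _, max_le (by linarith [bd_nonneg i]) (min_le_left _ _)⟩

theorem cl_eq {x : E} (h : Box x) : cl x = x := by
  funext i
  have := abs_le.1 (h i)
  rw [cl, min_eq_right this.2, max_eq_right this.1]

theorem cl_lip (x y : E) : ‖cl x - cl y‖ ≤ ‖x - y‖ := by
  refine (pi_norm_le_iff_of_nonneg (norm_nonneg _)).2 fun i => ?_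
  refine le_trans ?_ (norm_le_pi_norm (x - y) i)
  simp only [Pi.sub_apply, Real.norm_eq_abs, cl]
  refine (abs_max_sub_max_le_max _ _ _ _).trans (max_le (by simp) ?_)
  refine (abs_min_sub_min_le_max _ _ _ _).trans (max_le (by simp) le_rfl)

/-- the truncated field -/
noncomputable def fh (x : E) : E := B (cl x) (cl x)

theorem fh_eq {x : E} (h : Box x) : fh x = B x x := by rw [fh, cl_eq h]

theorem fh_lip (x y : E) : ‖fh x - fh y‖ ≤ 4 * ‖x - y‖ := by
  have e : fh x - fh y = B (cl x) (cl x - cl y) + B (cl x - cl y) (cl y) := by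
    rw [B_sub_left, B_sub_right, fh, fh]; abel
  rw [e]
  exact (norm_BB_le (cl_box x) (cl_box y) _).trans (by linarith [cl_lip x y])

theorem fh_lipschitz : LipschitzWith 4 fh :=
  LipschitzWith.of_dist_le_mul fun x y => by
    rw [dist_eq_norm, dist_eq_norm]; exact fh_lip x y

theorem fh_bound (x : E) : ‖fh x‖ ≤ 18 := by
  have h : ‖cl x‖ ≤ 3 :=
    (pi_norm_le_iff_of_nonneg (by norm_num)).2 fun i => (cl_box x i).trans (bd_le i)
  have := norm_B_le (cl x) (cl x)
  rw [fh]
  nlinarith [norm_nonneg (cl x)]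

def Sol (u : ℝ → E) : Prop := ∀ s ∈ Ioo (-4 : ℝ) 4, HasDerivAt u (fh (u s)) s

theorem exists_sol (x : E) : ∃ u : ℝ → E, u 0 = x ∧ Sol u := by
  have h : IsPicardLindelof (fun _ => fh) (tmin := -4) (tmax := 4) ⟨0, by norm_num⟩ x 72 0 18 4 :=
    IsPicardLindelof.of_time_independent (fun y _ => fh_bound y) fh_lipschitz.lipschitzOnWith
      (by norm_num)
  obtain ⟨u, h0, hu⟩ := h.exists_eq_forall_mem_Icc_hasDerivWithinAt₀
  exact ⟨u, h0, fun s hs =>
    (hu s (Ioo_subset_Icc_self hs)).hasDerivAt (Icc_mem_nhds hs.1 hs.2)⟩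

/-- signs of the reflection -/
def sg : E := ![-1, 1, 1, -1, 1, 1, -1, 1, 1, -1]

theorem sg_cases (i : Fin 10) : sg i = 1 ∨ sg i = -1 := by fin_cases i <;> simp [sg]

theorem sg_sg (x : E) : sg * (sg * x) = x := by
  funext i
  rcases sg_cases i with h | h <;> simp [h]

theorem box_sg {x : E} (h : Box x) : Box (sg * x) := fun i => by
  rcases sg_cases i with g | g <;> simpa [g] using h i

theorem cl_sg (x : E) : cl (sg * x) = sg * cl x := by
  funext i
  have := bd_nonneg i
  rcases sg_cases i with h | h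
  · simp [cl, h]
  · simp only [cl, Pi.mul_apply, h, neg_mul, one_mul, max_def, min_def]
    split_ifs <;> linarith

theorem fh_sg (x : E) : fh (sg * x) = sg * -fh x := by
  rw [fh, fh, cl_sg]
  funext i; fin_cases i <;> simp [B, sg] <;> ring

theorem Sol.symm {u : ℝ → E} (hu : Sol u) (h0 : sg * u 0 = u 0) {s : ℝ}
    (hs : s ∈ Ioo (-4 : ℝ) 4) : u (-s) = sg * u s := by
  have key : EqOn (fun s => sg * u (-s)) u (Ioo (-4) 4) := by
    refine ODE_solution_unique_of_mem_Ioo (v := fun _ => fh) (s := fun _ => univ) (K := 4) (t₀ := 0)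
      (fun _ _ => fh_lipschitz.lipschitzOnWith) (by norm_num) (fun t ht => ⟨?_, trivial⟩)
      (fun t ht => ⟨hu t ht, trivial⟩) (by simpa using h0)
    have h1 := (hu (-t) ⟨by linarith [ht.2], by linarith [ht.1]⟩).scomp t (hasDerivAt_neg t)
    have h2 := h1.const_mul sg
    rw [fh_sg]
    simpa using h2
  rw [← key hs, sg_sg]

theorem chain {e e' : ℕ → ℝ → E} {ε : ℝ} (hε : 0 ≤ ε)
    (hd : ∀ j < 12, ∀ t ∈ Icc (0 : ℝ) 1, HasDerivAt (e j) (e' j t) t)
    (hb : ∀ j < 12, ∀ t ∈ Icc (0 : ℝ) 1, ‖e' j t‖ ≤ ‖e j t‖ + ε)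
    (hc : ∀ j < 12, e (j + 1) 0 = e j 1) :
    ∀ j < 12, ∀ t ∈ Icc (0 : ℝ) 1, ‖e j t‖ ≤ 531441 * (‖e 0 0‖ + ε) := by
  have step : ∀ j < 12, ∀ t ∈ Icc (0 : ℝ) 1, ‖e j t‖ + ε ≤ 3 * (‖e j 0‖ + ε) := by
    intro j hj t ht
    have h := norm_le_gronwallBound_of_norm_deriv_right_le (f := e j) (f' := e' j) (K := 1)
      (ε := ε) (a := 0) (b := 1)
      (fun x hx => (hd j hj x hx).continuousAt.continuousWithinAt)
      (fun x hx => (hd j hj x (Ico_subset_Icc_self hx)).hasDerivWithinAt) le_rfl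
      (fun x hx => by rw [one_mul]; exact hb j hj x (Ico_subset_Icc_self hx)) t ht
    rw [gronwallBound_of_K_ne_0 one_ne_zero] at h
    simp only [one_mul, sub_zero, div_one] at h
    have h3 : Real.exp t ≤ 3 :=
      (Real.exp_le_exp.2 ht.2).trans (by linarith [Real.exp_one_lt_d9])
    nlinarith [norm_nonneg (e j 0)]
  have ind : ∀ j ≤ 12, ‖e j 0‖ + ε ≤ 3 ^ j * (‖e 0 0‖ + ε) := by
    intro j hj
    induction j with
    | zero => simp
    | succ j ih =>
      have h1 := step j (by omega) 1 (by norm_num)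
      have h2 := ih (by omega)
      rw [hc j (by omega), pow_succ]
      linarith
  intro j hj t ht
  have h1 := step j hj t ht
  have h2 := ind j hj.le
  have h3 : (3 : ℝ) ^ j ≤ 3 ^ 11 := pow_le_pow_right₀ (by norm_num) (by omega)
  have h4 : 0 ≤ ‖e 0 0‖ + ε := by positivity
  nlinarith [mul_le_mul_of_nonneg_right h3 h4]

end Pool.Agent.MP_03af62_an.Eye
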