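import Pool.Agent.MP_03af62_an.Defs

namespace Pool.Agent.MP_03af62_an

/-- The eyeglasses network with all weights equal to `μ` and natural conditions: curve `0` has both
ends at junction `0`, curve `1` has both ends at junction `1`, curve `2` joins the two junctions. -/
def glasses (μ : ℝ) : Net 3 :=
  ⟨fun e => if e.1 = 0 ∨ e = (2, false) then 0 else 1, fun _ => False, fun _ => μ⟩

end Pool.Agent.MP_03af62_an
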