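import Pool.Agent.MP_03af62_an.Eye.Drop
import Pool.Agent.MP_03af62_an.Eye.Glasses

/-! Two travelling loops joined by a segment. -/

open Set Filter Topology
open scoped ContDiff

namespace Pool.Agent.MP_03af62_an.Eye

def T0 : Finset (Fin 3 × Bool) := {(0, false), (0, true), (2, false)}
def T1 : Finset (Fin 3 × Bool) := {(1, false), (1, true), (2, true)}

theorem star_gl (μ : ℝ) (e : Fin 3 × Bool) :
    ((glasses μ).star e = T0 ∧ e ∈ T0) ∨ ((glasses μ).star e = T1 ∧ e ∈ T1) := by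
  have : (glasses μ).star e = Finset.univ.filter fun e' : Fin 3 × Bool =>
      (if e'.1 = 0 ∨ e' = (2, false) then 0 else 1 : ℕ) =
        if e.1 = 0 ∨ e = (2, false) then 0 else 1 := rfl
  rw [this]
  clear this
  revert e
  decide

noncomputable def xL (v t : ℝ) : ℂ := ((v * (t - 1) : ℝ) : ℂ)
noncomputable def xR (v t : ℝ) : ℂ := ((v * (1 - t) : ℝ) : ℂ)

noncomputable def flow3 (v : ℝ) (G H : ℝ → ℂ) (t : ℝ) : Fin 3 → ℝ → ℂ :=
  ![sh (xL v t) G, sh (xR v t) H, seg (xL v t) (1 * (2 * v * (1 - t)))]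

theorem flow3_0 (v : ℝ) (G H : ℝ → ℂ) (t : ℝ) : flow3 v G H t 0 = sh (xL v t) G := rfl
theorem flow3_1 (v : ℝ) (G H : ℝ → ℂ) (t : ℝ) : flow3 v G H t 1 = sh (xR v t) H := rfl
theorem flow3_2 (v : ℝ) (G H : ℝ → ℂ) (t : ℝ) :
    flow3 v G H t 2 = seg (xL v t) (1 * (2 * v * (1 - t))) := rfl

theorem span_top' {S : Set ℂ} {n : ℂ} (hn : n.re ≠ 0) (h1 : Complex.I * (1 : ℝ) ∈ S) (h2 : n ∈ S) :
    Submodule.span ℝ S = ⊤ := by
  rw [eq_top_iff]
  intro z _
  have e : z = (z.re / n.re) • n + (z.im - z.re / n.re * n.im) • (Complex.I * (1 : ℝ)) := by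
    apply Complex.ext
    · simp [hn]
    · simp
  rw [e]
  exact Submodule.add_mem _ (Submodule.smul_mem _ _ (Submodule.subset_span h2))
    (Submodule.smul_mem _ _ (Submodule.subset_span h1))

theorem time_der (v : ℝ) (G H : ℝ → ℂ) {t : ℝ} (ht : t ∈ Ico (0 : ℝ) 1) (i : Fin 3) (x : ℝ) :
    ∃ w : ℝ, (i = 0 → w = v) ∧ (i = 1 → w = -v) ∧
      derivWithin (fun u => flow3 v G H u i x) (Ico 0 1) t = (w : ℂ) := by
  have hu := uniqueDiffOn_Ico (0 : ℝ) 1 t ht
  have hL : HasDerivAt (xL v) ((v * 1 : ℝ) : ℂ) t :=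
    (((hasDerivAt_id t).sub_const 1).const_mul v).ofReal_comp
  have hR : HasDerivAt (xR v) ((v * -1 : ℝ) : ℂ) t :=
    (((hasDerivAt_id t).const_sub 1).const_mul v).ofReal_comp
  have r1 : HasDerivAt (fun u : ℝ => x * (1 * (2 * v * (1 - u)))) (x * (1 * (2 * v * -1))) t :=
    ((((hasDerivAt_id t).const_sub 1).const_mul (2 * v)).const_mul 1).const_mul x
  fin_cases i
  · exact ⟨v * 1, fun _ => mul_one v, fun h => absurd h (by decide),
      (hL.add_const (G x)).hasDerivWithinAt.derivWithin hu⟩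
  · exact ⟨v * -1, fun h => absurd h (by decide), fun _ => by ring,
      (hR.add_const (H x)).hasDerivWithinAt.derivWithin hu⟩
  · refine ⟨v * 1 + x * (1 * (2 * v * -1)), fun h => absurd h (by decide),
      fun h => absurd h (by decide), ?_⟩
    rw [Complex.ofReal_add]
    exact (hL.add r1.ofReal_comp).hasDerivWithinAt.derivWithin hu

section

variable {v μ : ℝ} {G H : ℝ → ℂ} (hv : 0 < v) (P : Loop v μ μ G) (Q : Loop (-v) μ (-μ) H)

include hv in
theorem len_pos {t : ℝ} (ht : t ∈ Ico (0 : ℝ) 1) : 0 < 2 * v * (1 - t) :=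
  mul_pos (by linarith) (by linarith [ht.2])

include P in
theorem pos_T0 (t : ℝ) {e : Fin 3 × Bool} (he : e ∈ T0) :
    flow3 v G H t e.1 (pt e.2) = xL v t := by
  simp only [T0, Finset.mem_insert, Finset.mem_singleton] at he
  rcases he with rfl | rfl | rfl
  · simp only [flow3_0, sh, P.ends, add_zero]
  · simp only [flow3_0, sh, P.ends, add_zero]
  · simp [flow3_2, seg, pt]

include Q in
theorem pos_T1 (t : ℝ) {e : Fin 3 × Bool} (he : e ∈ T1) :
    flow3 v G H t e.1 (pt e.2) = xR v t := by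
  simp only [T1, Finset.mem_insert, Finset.mem_singleton] at he
  rcases he with rfl | rfl | rfl
  · simp only [flow3_1, sh, Q.ends, add_zero]
  · simp only [flow3_1, sh, Q.ends, add_zero]
  · simp only [flow3_2, seg, pt_true, xL, xR]; push_cast; ring

include hv P Q

theorem regular {t : ℝ} (ht : t ∈ Ico (0 : ℝ) 1) (i : Fin 3) {x : ℝ} (hx : x ∈ Icc (0 : ℝ) 1) :
    derivWithin (flow3 v G H t i) (Icc 0 1) x ≠ 0 := by
  fin_cases i
  · exact P.reg _ x hx
  · exact Q.reg _ x hx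
  · show derivWithin (flow3 v G H t 2) (Icc 0 1) x ≠ 0
    rw [flow3_2, seg_dW _ _ hx, one_mul]
    exact_mod_cast (len_pos hv ht).ne'

theorem bc (t0 : ℝ) {t : ℝ} (ht : t ∈ Ico (0 : ℝ) 1) :
    BC (glasses μ) (flow3 v G H t0) (flow3 v G H t) := by
  have h1 := len_pos hv ht
  intro e
  refine ⟨?_, fun h => h.elim, fun _ => ⟨?_, ?_, ?_⟩⟩
  · intro e' he'
    rcases star_gl μ e with ⟨h, he⟩ | ⟨h, he⟩
    · rw [h] at he'; rw [pos_T0 P t he, pos_T0 P t he']
    · rw [h] at he'; rw [pos_T1 Q t he, pos_T1 Q t he']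
  · obtain ⟨i, b⟩ := e
    fin_cases i
    · exact P.curv0 _ b
    · exact Q.curv0 _ b
    · exact seg_curv _ (Or.inl rfl) h1 (pt_mem b)
  · intro hc
    rcases star_gl μ e with ⟨h, -⟩ | ⟨h, -⟩ <;> rw [h] at hc <;> exact absurd hc (by decide)
  · intro _
    show ∑ e' ∈ (glasses μ).star e, (if e'.2 then (-1 : ℝ) else 1) •
      force ((glasses μ).weight e'.1) (flow3 v G H t e'.1) (pt e'.2) = 0
    rcases star_gl μ e with ⟨h, -⟩ | ⟨h, -⟩
    · rw [h, T0, Finset.sum_insert (by decide), Finset.sum_insert (by decide),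
        Finset.sum_singleton]
      show (1 : ℝ) • force μ (sh (xL v t) G) 0 + ((-1 : ℝ) • force μ (sh (xL v t) G) 1 +
        (1 : ℝ) • force μ (seg (xL v t) (1 * (2 * v * (1 - t)))) 0) = 0
      rw [seg_force _ _ (Or.inl rfl) h1 zero_mem01]
      simp only [one_smul, neg_smul]
      push_cast
      linear_combination P.frc (xL v t)
    · rw [h, T1, Finset.sum_insert (by decide), Finset.sum_insert (by decide),
        Finset.sum_singleton]
      show (1 : ℝ) • force μ (sh (xR v t) H) 0 + ((-1 : ℝ) • force μ (sh (xR v t) H) 1 +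
        (-1 : ℝ) • force μ (seg (xL v t) (1 * (2 * v * (1 - t)))) 1) = 0
      rw [seg_force _ _ (Or.inl rfl) h1 one_mem01]
      have := Q.frc (xR v t)
      simp only [one_smul, neg_smul]
      push_cast at this ⊢
      linear_combination this

omit hv in
theorem smooth_flow (i : Fin 3) :
    ContDiffOn ℝ ∞ (fun p : ℝ × ℝ => flow3 v G H p.1 i p.2) (Ico 0 1 ×ˢ Icc 0 1) := by
  have hR : ∀ f : ℝ × ℝ → ℝ, ContDiff ℝ ∞ f → ContDiff ℝ ∞ (fun p => ((f p : ℝ) : ℂ)) :=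
    fun f hf => Complex.ofRealCLM.contDiff.comp hf
  have hL' : ContDiff ℝ ∞ (fun p : ℝ × ℝ => xL v p.1) := hR _ (by fun_prop)
  have hR' : ContDiff ℝ ∞ (fun p : ℝ × ℝ => xR v p.1) := hR _ (by fun_prop)
  fin_cases i
  · exact hL'.contDiffOn.add (P.smooth.comp contDiffOn_snd fun p hp => hp.2)
  · exact hR'.contDiffOn.add (Q.smooth.comp contDiffOn_snd fun p hp => hp.2)
  · exact (hL'.add (hR (fun p => p.2 * (1 * (2 * v * (1 - p.1)))) (by fun_prop))).contDiffOn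

theorem inner_vel {t : ℝ} (ht : t ∈ Ico (0 : ℝ) 1) (i : Fin 3) {x : ℝ} (hx : x ∈ Icc (0 : ℝ) 1)
    (w : ℝ) (h0 : i = 0 → w = v) (h1 : i = 1 → w = -v) :
    inner ℝ (w : ℂ) (nrm (flow3 v G H t i) x) = vel μ (flow3 v G H t i) x := by
  fin_cases i
  · rw [h0 rfl]; exact P.inn _ x hx
  · rw [h1 rfl]; exact Q.inn _ x hx
  · show inner ℝ (w : ℂ) (nrm (flow3 v G H t 2) x) = vel μ (flow3 v G H t 2) x
    rw [flow3_2, seg_vel _ _ (Or.inl rfl) (len_pos hv ht) hx,
      seg_nrm _ (Or.inl rfl) (len_pos hv ht) hx, inner_c]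
    simp

theorem isFlow : IsFlow (glasses μ) 1 (flow3 v G H) := by
  refine ⟨smooth_flow P Q, fun t ht => ⟨bc hv P Q 0 ht, fun i x hx =>
    ⟨regular hv P Q ht i hx, ?_⟩⟩⟩
  obtain ⟨w, h0, h1, e⟩ := time_der v G H ht i x
  rw [e]
  exact inner_vel hv P Q ht i hx w h0 h1

theorem admissible {t : ℝ} (ht : t ∈ Ico (0 : ℝ) 1) : Admissible (glasses μ) (flow3 v G H t) := by
  have h1 := len_pos hv ht
  have hsm : ∀ i, ContDiffOn ℝ ∞ (flow3 v G H t i) (Icc 0 1) := fun i =>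
    (smooth_flow P Q i).comp (f := fun x : ℝ => (t, x)) (by fun_prop) (fun x hx => ⟨ht, hx⟩)
  refine ⟨fun i => ⟨hsm i, fun x hx => regular hv P Q ht i hx⟩, ?_, bc hv P Q t ht,
    fun e => ⟨fun _ _ => ?_, ?_⟩⟩
  · have hpc : ∀ i, IsConnected (flow3 v G H t i '' Icc 0 1) := fun i =>
      (isConnected_Icc zero_le_one).image _ (hsm i).continuousOn
    have e : (⋃ i, flow3 v G H t i '' Icc 0 1) = (flow3 v G H t 0 '' Icc 0 1 ∪
        flow3 v G H t 2 '' Icc 0 1) ∪ flow3 v G H t 1 '' Icc 0 1 := by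
      ext z
      simp only [mem_iUnion, Fin.exists_fin_succ, mem_union, IsEmpty.exists_iff, or_false]
      tauto
    rw [e]
    exact IsConnected.union
      ⟨xR v t, Or.inr ⟨_, pt_mem true, pos_T1 Q t (e := (2, true)) (by decide)⟩,
        _, pt_mem false, pos_T1 Q t (e := (1, false)) (by decide)⟩
      (IsConnected.union ⟨xL v t, ⟨_, pt_mem false, pos_T0 P t (e := (0, false)) (by decide)⟩,
        _, pt_mem false, pos_T0 P t (e := (2, false)) (by decide)⟩ (hpc 0) (hpc 2)) (hpc 1)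
  · rcases star_gl μ e with ⟨h, -⟩ | ⟨h, -⟩
    · rw [h]
      exact span_top' (P.nre (xL v t))
        ⟨(2, false), by simp [T0], seg_nrm _ (Or.inl rfl) h1 zero_mem01⟩
        ⟨(0, false), by simp [T0], rfl⟩
    · rw [h]
      exact span_top' (Q.nre (xR v t))
        ⟨(2, true), by simp [T1], seg_nrm _ (Or.inl rfl) h1 one_mem01⟩
        ⟨(1, false), by simp [T1], rfl⟩
  · rcases star_gl μ e with ⟨h, -⟩ | ⟨h, -⟩
    · rw [h]
      refine ⟨(v : ℂ), fun hc => hc.elim False.elim fun hc => absurd hc (by decide),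
        fun e' he' => inner_vel hv P Q ht e'.1 (pt_mem _) v (fun _ => rfl) fun h1 => ?_⟩
      exact absurd h1 (by revert e'; decide)
    · rw [h]
      refine ⟨((-v : ℝ) : ℂ), fun hc => hc.elim False.elim fun hc => absurd hc (by decide),
        fun e' he' => inner_vel hv P Q ht e'.1 (pt_mem _) (-v) (fun h1 => ?_) fun _ => rfl⟩
      exact absurd h1 (by revert e'; decide)

theorem tan_const {t : ℝ} (ht : t ∈ Ico (0 : ℝ) 1) (e : Fin 3 × Bool) :
    ds (flow3 v G H t e.1) (flow3 v G H t e.1) (pt e.2) =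
      ds (flow3 v G H 0 e.1) (flow3 v G H 0 e.1) (pt e.2) := by
  obtain ⟨i, b⟩ := e
  fin_cases i
  · exact P.tan _ _ b
  · exact Q.tan _ _ b
  · exact (seg_tan _ (Or.inl rfl) (len_pos hv ht) (pt_mem b)).trans
      (seg_tan _ (Or.inl rfl) (len_pos hv (by simp)) (pt_mem b)).symm

end

theorem len_tend (v : ℝ) (G H : ℝ → ℂ) :
    Tendsto (fun t => len (flow3 v G H t 2)) (𝓝[<] 1) (𝓝 0) := by
  have e : (fun t => len (flow3 v G H t 2)) = fun t : ℝ => |1 * (2 * v * (1 - t))| := by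
    funext t; rw [flow3_2, seg_len]
  rw [e]
  have hc : Continuous fun t : ℝ => |1 * (2 * v * (1 - t))| := by fun_prop
  have := hc.tendsto 1
  simp only [sub_self, mul_zero, abs_zero] at this
  exact this.mono_left nhdsWithin_le_nhds

theorem not_ext {v : ℝ} (hv : 0 < v) (G H : ℝ → ℂ) (D : Net 3) {T' : ℝ} (hT : 1 < T')
    (γ' : ℝ → Fin 3 → ℝ → ℂ) (hf : IsFlow D T' γ')
    (h : ∀ t ∈ Ico (0 : ℝ) 1, ∀ i, γ' t i '' Icc 0 1 = flow3 v G H t i '' Icc 0 1) : False := by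
  have h1 : (1 : ℝ) ∈ Ico 0 T' := ⟨zero_le_one, hT⟩
  have hconst : ∀ x ∈ Icc (0 : ℝ) 1, γ' 1 2 x = 0 := by
    intro x hx
    have hc : ContinuousWithinAt (fun t => γ' t 2 x) (Ico 0 T') 1 :=
      ((hf.1 2).continuousOn.comp (f := fun t : ℝ => (t, x)) (by fun_prop)
        (fun t ht => ⟨ht, hx⟩)) 1 h1
    have hmem : Ico (0 : ℝ) 1 ∈ 𝓝[<] (1 : ℝ) := Ico_mem_nhdsLT zero_lt_one
    have hle : 𝓝[<] (1 : ℝ) ≤ 𝓝[Ico 0 T'] 1 := by
      rw [nhdsWithin_le_iff]
      exact mem_of_superset hmem (fun t ht => ⟨ht.1, ht.2.trans hT⟩)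
    have t1 : Tendsto (fun t => γ' t 2 x) (𝓝[<] 1) (𝓝 (γ' 1 2 x)) := hc.tendsto.mono_left hle
    have t2 : Tendsto (fun t => γ' t 2 x) (𝓝[<] 1) (𝓝 0) := by
      rw [tendsto_zero_iff_norm_tendsto_zero]
      have hz : Tendsto (fun t : ℝ => v * (1 - t)) (𝓝[<] 1) (𝓝 0) := by
        have hc : Continuous fun t : ℝ => v * (1 - t) := by fun_prop
        have := hc.tendsto 1
        simp only [sub_self, mul_zero] at this
        exact this.mono_left nhdsWithin_le_nhds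
      refine squeeze_zero' (Eventually.of_forall fun _ => norm_nonneg _) ?_ hz
      filter_upwards [hmem] with t ht
      have hm : γ' t 2 x ∈ flow3 v G H t 2 '' Icc 0 1 := by
        rw [← h t ht 2]; exact ⟨x, hx, rfl⟩
      obtain ⟨y, hy, e⟩ := hm
      rw [← e, flow3_2, seg]
      have : xL v t + ((y * (1 * (2 * v * (1 - t))) : ℝ) : ℂ) =
          (((2 * y - 1) * (v * (1 - t)) : ℝ) : ℂ) := by
        unfold xL; push_cast; ring
      have hp : 0 < v * (1 - t) := mul_pos hv (by linarith [ht.2])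
      rw [this, Complex.norm_real, Real.norm_eq_abs, abs_le]
      constructor <;> nlinarith [hy.1, hy.2]
    exact tendsto_nhds_unique t1 t2
  exact ((hf.2 1 h1).2 2 0 zero_mem01).1 (dW_eq zero_mem01 hconst (hasDerivAt_const _ _))

theorem main (μ : ℝ) (hμ : 0 < μ) : ∃ (T : ℝ) (γ : ℝ → Fin 3 → ℝ → ℂ), 0 < T ∧
    IsFlow (glasses μ) T γ ∧ (∀ t ∈ Ico 0 T, Admissible (glasses μ) (γ t)) ∧
    (∀ t ∈ Ico 0 T, ∀ e : Fin 3 × Bool,
      ds (γ t e.1) (γ t e.1) (pt e.2) = ds (γ 0 e.1) (γ 0 e.1) (pt e.2)) ∧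
    (¬ ∃ T' > T, ∃ γ' : ℝ → Fin 3 → ℝ → ℂ, IsFlow (glasses μ) T' γ' ∧
      ∀ t ∈ Ico 0 T, ∀ i, γ' t i '' Icc 0 1 = γ t i '' Icc 0 1) ∧
    Tendsto (fun t => len (γ t 2)) (𝓝[<] T) (𝓝 0) := by
  obtain ⟨v, G, H, hv, P, Q⟩ := exists_loops hμ
  refine ⟨1, flow3 v G H, one_pos, isFlow hv P Q, fun t ht => admissible hv P Q ht,
    fun t ht e => tan_const hv P Q ht e, ?_, len_tend v G H⟩
  rintro ⟨T', hT, γ', hf, h⟩
  exact not_ext hv G H _ hT γ' hf h

end Pool.Agent.MP_03af62_an.Eye
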