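import Mathlib

/-! Vector valued polynomials with integer coefficients, for a quadratic vector field on `ℝ^10`. -/

open Set

namespace Pool.Agent.MP_03af62_an.Eye

abbrev E : Type := Fin 10 → ℝ

/-- the bilinear map of the vector field -/
def B (u v : E) : E :=
  ![-(u 2 * v 1), u 2 * v 0, u 4 * v 0 - u 3 * v 1, -(u 5 * v 1), u 5 * v 0, u 2 * v 6,
    -(u 2 * v 5), 0, u 7 * v 0, u 7 * v 1]

theorem B_add_left (x y z : E) : B (x + y) z = B x z + B y z := by
  funext i; fin_cases i <;> simp [B] <;> ring

theorem B_add_right (x y z : E) : B x (y + z) = B x y + B x z := by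
  funext i; fin_cases i <;> simp [B] <;> ring

theorem B_smul_left (c : ℝ) (x z : E) : B (c • x) z = c • B x z := by
  funext i; fin_cases i <;> simp [B] <;> ring

theorem B_smul_right (c : ℝ) (x z : E) : B x (c • z) = c • B x z := by
  funext i; fin_cases i <;> simp [B] <;> ring

theorem B_zero_left (z : E) : B 0 z = 0 := by
  funext i; fin_cases i <;> simp [B]

structure V where
  a : ℤ
  b : ℤ
  k : ℤ
  p : ℤ
  q : ℤ
  g : ℤ
  h : ℤ
  o : ℤ
  x : ℤ
  y : ℤ
deriving DecidableEq

def toE (v : V) : E := ![v.a, v.b, v.k, v.p, v.q, v.g, v.h, v.o, v.x, v.y]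

def V.zero : V := ⟨0, 0, 0, 0, 0, 0, 0, 0, 0, 0⟩

def V.const (n : ℤ) : V := ⟨n, n, n, n, n, n, n, n, n, n⟩

def V.add (u v : V) : V :=
  ⟨u.a + v.a, u.b + v.b, u.k + v.k, u.p + v.p, u.q + v.q, u.g + v.g, u.h + v.h, u.o + v.o,
    u.x + v.x, u.y + v.y⟩

def V.mul (c : ℤ) (v : V) : V :=
  ⟨c * v.a, c * v.b, c * v.k, c * v.p, c * v.q, c * v.g, c * v.h, c * v.o, c * v.x, c * v.y⟩

def V.div (v : V) (c : ℤ) : V :=
  ⟨v.a / c, v.b / c, v.k / c, v.p / c, v.q / c, v.g / c, v.h / c, v.o / c, v.x / c, v.y / c⟩

def V.abs (v : V) : V :=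
  ⟨v.a.natAbs, v.b.natAbs, v.k.natAbs, v.p.natAbs, v.q.natAbs, v.g.natAbs, v.h.natAbs, v.o.natAbs,
    v.x.natAbs, v.y.natAbs⟩

def V.le (u v : V) : Bool :=
  decide (u.a ≤ v.a) && decide (u.b ≤ v.b) && decide (u.k ≤ v.k) && decide (u.p ≤ v.p) &&
    decide (u.q ≤ v.q) && decide (u.g ≤ v.g) && decide (u.h ≤ v.h) && decide (u.o ≤ v.o) &&
    decide (u.x ≤ v.x) && decide (u.y ≤ v.y)

def V.bil (u v : V) : V :=
  ⟨-(u.k * v.b), u.k * v.a, u.q * v.a - u.p * v.b, -(u.g * v.b), u.g * v.a, u.k * v.h,
    -(u.k * v.g), 0, u.o * v.a, u.o * v.b⟩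

theorem toE_zero : toE V.zero = 0 := by
  funext i; fin_cases i <;> simp [toE, V.zero]

theorem toE_const (n : ℤ) (i : Fin 10) : toE (V.const n) i = n := by
  fin_cases i <;> simp [toE, V.const]

theorem toE_add (u v : V) : toE (u.add v) = toE u + toE v := by
  funext i; fin_cases i <;> simp [toE, V.add]

theorem toE_mul (c : ℤ) (v : V) : toE (v.mul c) = (c : ℝ) • toE v := by
  funext i; fin_cases i <;> simp [toE, V.mul]

theorem toE_abs (v : V) (i : Fin 10) : toE v.abs i = |toE v i| := by
  fin_cases i <;> simp [toE, V.abs]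

theorem toE_bil (u v : V) : toE (u.bil v) = B (toE u) (toE v) := by
  funext i; fin_cases i <;> simp [toE, V.bil, B]

theorem toE_le {u v : V} (h : u.le v = true) (i : Fin 10) : toE u i ≤ toE v i := by
  simp only [V.le, Bool.and_eq_true, decide_eq_true_eq] at h
  obtain ⟨⟨⟨⟨⟨⟨⟨⟨⟨h0, h1⟩, h2⟩, h3⟩, h4⟩, h5⟩, h6⟩, h7⟩, h8⟩, h9⟩ := h
  fin_cases i <;> simp [toE] <;> assumption

/-- value of a polynomial -/
noncomputable def ev : List V → ℝ → E
  | [], _ => 0
  | c :: p, t => toE c + t • ev p t

/-- value of the derivative -/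
noncomputable def dv : List V → ℝ → E
  | [], _ => 0
  | _ :: p, t => ev p t + t • dv p t

theorem hasDerivAt_ev (p : List V) (t : ℝ) : HasDerivAt (ev p) (dv p t) t := by
  induction p with
  | nil => exact hasDerivAt_const t 0
  | cons c p ih =>
    have := ((hasDerivAt_id t).smul ih).const_add (toE c)
    refine HasDerivAt.congr_deriv this ?_
    simp [dv, add_comm]

def padd : List V → List V → List V
  | [], q => q
  | p, [] => p
  | c :: p, d :: q => c.add d :: padd p q

theorem ev_padd (p q : List V) (t : ℝ) : ev (padd p q) t = ev p t + ev q t := by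
  induction p generalizing q with
  | nil => simp [padd, ev]
  | cons c p ih =>
    cases q with
    | nil => simp [padd, ev]
    | cons d q =>
      simp only [padd, ev, ih, toE_add, smul_add]
      abel

def pmul (c : ℤ) : List V → List V
  | [] => []
  | d :: q => d.mul c :: pmul c q

theorem ev_pmul (c : ℤ) (p : List V) (t : ℝ) : ev (pmul c p) t = (c : ℝ) • ev p t := by
  induction p with
  | nil => simp [pmul, ev]
  | cons d p ih => simp only [pmul, ev, ih, toE_mul, smul_add, smul_comm t]

def prow (c : V) : List V → List V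
  | [] => []
  | d :: q => c.bil d :: prow c q

theorem ev_prow (c : V) (p : List V) (t : ℝ) : ev (prow c p) t = B (toE c) (ev p t) := by
  induction p with
  | nil => funext i; fin_cases i <;> simp [prow, ev, B]
  | cons d p ih => simp only [prow, ev, ih, toE_bil, B_add_right, B_smul_right]

def pbil : List V → List V → List V
  | [], _ => []
  | c :: p, q => padd (prow c q) (V.zero :: pbil p q)

theorem ev_pbil (p q : List V) (t : ℝ) : ev (pbil p q) t = B (ev p t) (ev q t) := by
  induction p with
  | nil => simp [pbil, ev, B_zero_left]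
  | cons c p ih =>
    simp only [pbil, ev_padd, ev_prow, ev, ih, toE_zero, zero_add, B_add_left, B_smul_left]

def derAux (n : ℤ) : List V → List V
  | [] => []
  | c :: p => c.mul n :: derAux (n + 1) p

theorem ev_derAux (n : ℤ) (p : List V) (t : ℝ) :
    ev (derAux n p) t = (n : ℝ) • ev p t + t • dv p t := by
  induction p generalizing n with
  | nil => simp [derAux, ev, dv]
  | cons c p ih =>
    simp only [derAux, ev, dv, ih, toE_mul, Int.cast_add, Int.cast_one, smul_add, add_smul,
      one_smul, smul_comm t (n : ℝ)]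
    abel

theorem ev_der (c : V) (p : List V) (t : ℝ) : ev (derAux 1 p) t = dv (c :: p) t := by
  rw [ev_derAux]; simp [dv]

def pabs : List V → V
  | [] => V.zero
  | c :: p => c.abs.add (pabs p)

theorem abs_ev_le (p : List V) {t : ℝ} (ht : t ∈ Icc (0 : ℝ) 1) (i : Fin 10) :
    |ev p t i| ≤ toE (pabs p) i := by
  induction p with
  | nil => simp [ev, pabs, toE_zero]
  | cons c p ih =>
    simp only [ev, pabs, toE_add, Pi.add_apply, Pi.smul_apply, smul_eq_mul, toE_abs]
    refine (abs_add_le _ _).trans (add_le_add le_rfl ?_)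
    rw [abs_mul, abs_of_nonneg ht.1]
    nlinarith [abs_nonneg (ev p t i), ht.1, ht.2]

def psum : List V → V
  | [] => V.zero
  | c :: p => c.add (psum p)

theorem ev_one (p : List V) : ev p 1 = toE (psum p) := by
  induction p with
  | nil => simp [ev, psum, toE_zero]
  | cons c p ih => simp [ev, psum, toE_add, ih]

theorem ev_zero (c : V) (p : List V) : ev (c :: p) 0 = toE c := by simp [ev]

/-- the scale of the fixed point numbers -/
def sc : ℤ := 1267650600228229401496703205376

def conv : List V → List V → V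
  | c :: p, d :: q => (c.bil d).add (conv p q)
  | _, _ => V.zero

def conv2 : List V → List V → V
  | c :: p, d :: q => ((c.bil d).add (d.bil c)).add (conv2 p q)
  | _, _ => V.zero

/-- Taylor coefficients of the approximate solution, last coefficient first -/
def genU : ℕ → ℤ → List V → List V
  | 0, _, r => r
  | m + 1, n, r => genU m (n + 1) ((conv r.reverse r).div (4 * n * sc) :: r)

/-- Taylor coefficients of an approximate solution of the linearised equation -/
def genW (U : List V) : ℕ → ℤ → List V → List V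
  | 0, _, r => r
  | m + 1, n, r => genW U m (n + 1) ((conv2 U r).div (4 * n * sc) :: r)

def tailU (u : V) : List V := (genU 30 1 [u]).reverse.tail

def tailW (U : List V) (w : V) : List V := (genW U 13 1 [w]).reverse.tail

def boxV : V :=
  ⟨124 * sc / 100, 124 * sc / 100, 174 * sc / 100, 49 * sc / 100, 99 * sc / 100, 49 * sc / 100,
    49 * sc / 100, 124 * sc / 100, 299 * sc / 100, 199 * sc / 100⟩

def chkU (u : V) (p : List V) (u' : V) : Bool :=
  (pabs (u :: p)).le boxV &&
    (pabs (padd (pmul (4 * sc) (derAux 1 p)) (pmul (-1) (pbil (u :: p) (u :: p))))).le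
      (V.const (sc * sc / 10 ^ 22)) && decide (psum (u :: p) = u')

def chkW (U : List V) (w : V) (p : List V) (w' : V) : Bool :=
  (pabs (w :: p)).le (V.const (2 * sc)) &&
    (pabs (padd (pmul (4 * sc) (derAux 1 p))
      (pmul (-1) (padd (pbil U (w :: p)) (pbil (w :: p) U))))).le
      (V.const (4 * sc * sc / 10 ^ 8)) && decide (psum (w :: p) = w')

/-- values of the approximate solution and of three solutions of the linearised equation -/
structure St where
  u : V
  w0 : V
  w1 : V
  w2 : V

def chk3 (s s' : St) (p : List V) : Bool :=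
  chkU s.u p s'.u && chkW (s.u :: p) s.w0 (tailW (s.u :: p) s.w0) s'.w0 &&
    chkW (s.u :: p) s.w1 (tailW (s.u :: p) s.w1) s'.w1 &&
    chkW (s.u :: p) s.w2 (tailW (s.u :: p) s.w2) s'.w2

def chk (s s' : St) : Bool := chk3 s s' (tailU s.u)

end Pool.Agent.MP_03af62_an.Eye
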