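import Pool.Agent.MP_03af62_an.Eye.Field

/-! Validated shooting: from approximate solutions to a solution of the boundary value problem. -/

open Set Metric

namespace Pool.Agent.MP_03af62_an.Eye

structure Approx (U U' : ℕ → ℝ → E) (W W' : Fin 3 → ℕ → ℝ → E) : Prop where
  dU : ∀ j t, HasDerivAt (U j) (U' j t) t
  dW : ∀ i j t, HasDerivAt (W i j) (W' i j t) t
  cU : ∀ j < 12, U (j + 1) 0 = U j 1
  cW : ∀ i, ∀ j < 12, W i (j + 1) 0 = W i j 1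
  box : ∀ j < 12, ∀ t ∈ Icc (0 : ℝ) 1, ∀ i, |U j t i| ≤ bd i - 1 / 100
  defU : ∀ j < 12, ∀ t ∈ Icc (0 : ℝ) 1, ‖(4 : ℝ) • U' j t - B (U j t) (U j t)‖ ≤ 1 / 10 ^ 22
  bW : ∀ i, ∀ j < 12, ∀ t ∈ Icc (0 : ℝ) 1, ‖W i j t‖ ≤ 2
  defW : ∀ i, ∀ j < 12, ∀ t ∈ Icc (0 : ℝ) 1,
    ‖(4 : ℝ) • W' i j t - (B (U j t) (W i j t) + B (W i j t) (U j t))‖ ≤ 4 / 10 ^ 8
  i0 : U 0 0 0 = 0
  i1 : U 0 0 1 = 1
  i3 : U 0 0 3 = 0
  i6 : U 0 0 6 = 0
  i7 : U 0 0 7 = 1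
  i9 : U 0 0 9 = 0
  i5 : U 0 0 5 ≤ -(1 / 4)
  iW : ∀ i, W i 0 0 0 = 0 ∧ W i 0 0 1 = 0 ∧ W i 0 0 3 = 0 ∧ W i 0 0 6 = 0 ∧ W i 0 0 7 = 0 ∧
    W i 0 0 9 = 0
  e1 : U 12 0 1 ≤ -(1 / 2)
  e3 : 1 / 4 + 1 / 100 ≤ U 12 0 3
  r0 : |U 12 0 2| ≤ 1 / 10 ^ 17
  r1 : |U 12 0 9| ≤ 1 / 10 ^ 17
  r2 : |4 * U 12 0 3 - U 0 0 2 ^ 2 + 2 * U 0 0 4| ≤ 1 / 10 ^ 17
  j0 : ∀ i, |W i 12 0 2 - ![1, 0, 0] i| ≤ 1 / 100
  j1 : ∀ i, |W i 12 0 9 - ![0, 1, 0] i| ≤ 1 / 100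
  j2 : ∀ i, |4 * W i 12 0 3 - 2 * U 0 0 2 * W i 0 0 2 + 2 * W i 0 0 4 - ![0, 0, 1] i| ≤ 1 / 100

def comb (d : Fin 3 → ℝ) (w : Fin 3 → E) : E := d 0 • w 0 + d 1 • w 1 + d 2 • w 2

theorem norm_comb_le (d : Fin 3 → ℝ) {w : Fin 3 → E} {M : ℝ} (h : ∀ i, ‖w i‖ ≤ M) :
    ‖comb d w‖ ≤ 3 * (‖d‖ * M) := by
  have k : ∀ i, ‖d i • w i‖ ≤ ‖d‖ * M := fun i => by
    rw [norm_smul]
    exact mul_le_mul (norm_le_pi_norm d i) (h i) (norm_nonneg _) (norm_nonneg _)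
  have := norm_add₃_le (a := d 0 • w 0) (b := d 1 • w 1) (c := d 2 • w 2)
  rw [comb]
  linarith [k 0, k 1, k 2]

theorem mem_time {j : ℕ} (hj : j < 12) {t : ℝ} (ht : t ∈ Icc (0 : ℝ) 1) :
    ((j : ℝ) + t) / 4 ∈ Ioo (-4 : ℝ) 4 := by
  have h1 : (j : ℝ) ≤ 11 := by exact_mod_cast Nat.lt_succ_iff.1 hj
  have h2 : (0 : ℝ) ≤ j := Nat.cast_nonneg j
  constructor <;> linarith [ht.1, ht.2]

theorem Sol.piece {u : ℝ → E} (hu : Sol u) {j : ℕ} (hj : j < 12) {t : ℝ} (ht : t ∈ Icc (0 : ℝ) 1) :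
    HasDerivAt (fun t : ℝ => u (((j : ℝ) + t) / 4)) ((1 / 4 : ℝ) • fh (u ((j + t) / 4))) t := by
  have h1 : HasDerivAt (fun t : ℝ => ((j : ℝ) + t) / 4) (1 / 4) t :=
    ((hasDerivAt_id t).const_add _).div_const 4
  exact (hu _ (mem_time hj ht)).scomp t h1

theorem time_succ (j : ℕ) : (((j + 1 : ℕ) : ℝ) + 0) / 4 = ((j : ℝ) + 1) / 4 := by
  push_cast; ring

theorem time_end : (((11 : ℕ) : ℝ) + 1) / 4 = 3 := by norm_num

namespace Approx

variable {U U' : ℕ → ℝ → E} {W W' : Fin 3 → ℕ → ℝ → E} (A : Approx U U' W W')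
include A

theorem boxU {j : ℕ} (hj : j < 12) {t : ℝ} (ht : t ∈ Icc (0 : ℝ) 1) : Box (U j t) :=
  fun i => by linarith [A.box j hj t ht i]

theorem close {u : ℝ → E} (hu : Sol u) {j : ℕ} (hj : j < 12) {t : ℝ} (ht : t ∈ Icc (0 : ℝ) 1) :
    ‖u ((j + t) / 4) - U j t‖ ≤ 531441 * (‖u 0 - U 0 0‖ + 1 / 10 ^ 22) := by
  have key := chain (e := fun j t => u (((j : ℝ) + t) / 4) - U j t)
    (e' := fun j t => (1 / 4 : ℝ) • fh (u (((j : ℝ) + t) / 4)) - U' j t) (ε := 1 / 10 ^ 22)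
    (by positivity) (fun j hj t ht => (hu.piece hj ht).sub (A.dU j t)) ?_
    (fun j hj => by simp only [time_succ, A.cU j hj]) j hj t ht
  · simpa using key
  · intro j hj t ht
    have e : (1 / 4 : ℝ) • fh (u (((j : ℝ) + t) / 4)) - U' j t =
        (1 / 4 : ℝ) • (fh (u (((j : ℝ) + t) / 4)) - fh (U j t)) -
          (1 / 4 : ℝ) • ((4 : ℝ) • U' j t - B (U j t) (U j t)) := by
      rw [fh_eq (A.boxU hj ht)]
      module
    have h1 := fh_lip (u (((j : ℝ) + t) / 4)) (U j t)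
    have h2 := A.defU j hj t ht
    rw [e]
    refine (norm_sub_le _ _).trans ?_
    rw [norm_smul, norm_smul, Real.norm_of_nonneg (by norm_num : (0 : ℝ) ≤ 1 / 4)]
    have : (0 : ℝ) ≤ 1 / 10 ^ 22 := by positivity
    linarith

theorem init_le (d : Fin 3 → ℝ) : ‖comb d fun i => W i 0 0‖ ≤ 6 * ‖d‖ := by
  have := norm_comb_le d fun i => A.bW i 0 (by norm_num) 0 (by norm_num)
  linarith

theorem near {u : ℝ → E} (hu : Sol u) {d : Fin 3 → ℝ} (hd : ‖d‖ ≤ 1 / 10 ^ 15)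
    (h0 : u 0 = U 0 0 + comb d fun i => W i 0 0) {j : ℕ} (hj : j < 12) {t : ℝ}
    (ht : t ∈ Icc (0 : ℝ) 1) : ‖u ((j + t) / 4) - U j t‖ ≤ 1 / 10 ^ 8 := by
  have h1 := A.close hu hj ht
  rw [h0, add_sub_cancel_left] at h1
  have h2 := A.init_le d
  norm_num at h1 hd ⊢
  linarith

theorem boxu {u : ℝ → E} (hu : Sol u) {d : Fin 3 → ℝ} (hd : ‖d‖ ≤ 1 / 10 ^ 15)
    (h0 : u 0 = U 0 0 + comb d fun i => W i 0 0) {j : ℕ} (hj : j < 12) {t : ℝ}
    (ht : t ∈ Icc (0 : ℝ) 1) : Box (u ((j + t) / 4)) := by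
  intro i
  have h1 := (norm_le_pi_norm _ i).trans (A.near hu hd h0 hj ht)
  have h2 := abs_le.1 (A.box j hj t ht i)
  rw [Pi.sub_apply, Real.norm_eq_abs, abs_le] at h1
  rw [abs_le]
  norm_num at h1
  constructor <;> linarith [h1.1, h1.2, h2.1, h2.2]

theorem diff {u v : ℝ → E} (hu : Sol u) (hv : Sol v) {d d' : Fin 3 → ℝ} (hd : ‖d‖ ≤ 1 / 10 ^ 15)
    (hd' : ‖d'‖ ≤ 1 / 10 ^ 15) (h0 : u 0 = U 0 0 + comb d fun i => W i 0 0)
    (h0' : v 0 = U 0 0 + comb d' fun i => W i 0 0) :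
    ‖u 3 - v 3 - comb (d - d') fun i => W i 12 0‖ ≤ 6 / 100 * ‖d - d'‖ := by
  have key := chain
    (e := fun j t => u (((j : ℝ) + t) / 4) - v (((j : ℝ) + t) / 4) -
      comb (d - d') fun i => W i j t)
    (e' := fun j t => (1 / 4 : ℝ) • fh (u (((j : ℝ) + t) / 4)) -
      (1 / 4 : ℝ) • fh (v (((j : ℝ) + t) / 4)) - comb (d - d') fun i => W' i j t)
    (ε := 1 / 10 ^ 7 * ‖d - d'‖) (by positivity)
    (fun j hj t ht => ((hu.piece hj ht).sub (hv.piece hj ht)).sub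
      ((((A.dW 0 j t).const_smul ((d - d') 0)).add ((A.dW 1 j t).const_smul ((d - d') 1))).add
        ((A.dW 2 j t).const_smul ((d - d') 2)))) ?_
    (fun j hj => by simp only [time_succ, A.cW _ j hj]) 11 (by norm_num) 1 (by norm_num)
  · have e0 : u 0 - v 0 - comb (d - d') (fun i => W i 0 0) = 0 := by
      rw [h0, h0']
      simp only [comb, Pi.sub_apply]
      module
    have e1 : (fun i => W i 12 0) = fun i => W i 11 1 := funext fun i => A.cW i 11 (by norm_num)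
    simp only [time_end, Nat.cast_zero, add_zero, zero_div, e0, norm_zero, zero_add] at key
    rw [e1]
    have := norm_nonneg (d - d')
    norm_num at key ⊢
    linarith
  · intro j hj t ht
    have bu := A.boxu hu hd h0 hj ht
    have bv := A.boxu hv hd' h0' hj ht
    have nu := A.near hu hd h0 hj ht
    have nv := A.near hv hd' h0' hj ht
    rw [fh_eq bu, fh_eq bv]
    set x := u (((j : ℝ) + t) / 4)
    set y := v (((j : ℝ) + t) / 4)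
    set z := U j t
    set w := comb (d - d') fun i => W i j t with hw
    have hD := norm_comb_le (d - d') fun i => A.defW i j hj t ht
    have hwn : ‖w‖ ≤ 3 * (‖d - d'‖ * 2) := norm_comb_le (d - d') fun i => A.bW i j hj t ht
    have e : (1 / 4 : ℝ) • B x x - (1 / 4 : ℝ) • B y y - comb (d - d') (fun i => W' i j t) =
        (1 / 4 : ℝ) • ((B x (x - y - w) + B (x - y - w) y) + B (x - z) w + B w (y - z) -
          comb (d - d') fun i => (4 : ℝ) • W' i j t - (B z (W i j t) + B (W i j t) z)) := by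
      simp only [hw, comb, B_sub_left, B_sub_right, B_add_left, B_add_right, B_smul_left,
        B_smul_right]
      module
    rw [e, norm_smul, Real.norm_of_nonneg (by norm_num : (0 : ℝ) ≤ 1 / 4)]
    have h1 := norm_BB_le bu bv (x - y - w)
    have h2 := norm_B_le (x - z) w
    have h3 := norm_B_le w (y - z)
    have h4 := mul_le_mul nu hwn (norm_nonneg _) (by positivity)
    have h5 := mul_le_mul hwn nv (norm_nonneg _) (by positivity)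
    have h6 := norm_add₃_le (a := B x (x - y - w) + B (x - y - w) y) (b := B (x - z) w)
      (c := B w (y - z))
    have h7 := norm_sub_le ((B x (x - y - w) + B (x - y - w) y) + B (x - z) w + B w (y - z))
      (comb (d - d') fun i => (4 : ℝ) • W' i j t - (B z (W i j t) + B (W i j t) z))
    have h8 := norm_nonneg (d - d')
    norm_num at h4 h5 hD ⊢
    linarith

end Approx

/-- the shooting map -/
def shoot (x y : E) : Fin 3 → ℝ := ![y 2, y 9, 4 * y 3 - x 2 ^ 2 + 2 * x 4]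

theorem abs_lin {d : Fin 3 → ℝ} {a : Fin 3 → ℝ} {η : ℝ} (h : ∀ i, |a i| ≤ η) :
    |d 0 * a 0 + d 1 * a 1 + d 2 * a 2| ≤ 3 * (‖d‖ * η) := by
  have k : ∀ i, -(‖d‖ * η) ≤ d i * a i ∧ d i * a i ≤ ‖d‖ * η := fun i =>
    amul (norm_le_pi_norm d i) (h i)
  rw [abs_le]
  constructor <;> linarith [k 0, k 1, k 2]

namespace Approx

variable {U U' : ℕ → ℝ → E} {W W' : Fin 3 → ℕ → ℝ → E} (A : Approx U U' W W')
include A

theorem lip {u v : ℝ → E} (hu : Sol u) (hv : Sol v) {d d' : Fin 3 → ℝ} (hd : ‖d‖ ≤ 1 / 10 ^ 15)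
    (hd' : ‖d'‖ ≤ 1 / 10 ^ 15) (h0 : u 0 = U 0 0 + comb d fun i => W i 0 0)
    (h0' : v 0 = U 0 0 + comb d' fun i => W i 0 0) :
    ‖(d - shoot (u 0) (u 3)) - (d' - shoot (v 0) (v 3))‖ ≤ 1 / 2 * ‖d - d'‖ := by
  have h := A.diff hu hv hd hd' h0 h0'
  have hc : ∀ i, |u 3 i - v 3 i - ((d - d') 0 * W 0 12 0 i + (d - d') 1 * W 1 12 0 i +
      (d - d') 2 * W 2 12 0 i)| ≤ 6 / 100 * ‖d - d'‖ := fun i => (norm_le_pi_norm _ i).trans h
  have n0 := norm_nonneg (d - d')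
  have l0 := abs_le.1 (abs_lin (d := d - d') A.j0)
  have l1 := abs_le.1 (abs_lin (d := d - d') A.j1)
  have l2 := abs_le.1 (abs_lin (d := d - d') A.j2)
  have c2 := abs_le.1 (hc 2)
  have c9 := abs_le.1 (hc 9)
  have c3 := abs_le.1 (hc 3)
  have m1 : |(comb d fun i => W i 0 0) 2| ≤ 6 * ‖d‖ := (norm_le_pi_norm _ 2).trans (A.init_le d)
  have m2 : |(comb d' fun i => W i 0 0) 2| ≤ 6 * ‖d'‖ := (norm_le_pi_norm _ 2).trans (A.init_le d')
  have m3 : |(comb (d - d') fun i => W i 0 0) 2| ≤ 6 * ‖d - d'‖ :=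
    (norm_le_pi_norm _ 2).trans (A.init_le _)
  have m4 : |(comb d fun i => W i 0 0) 2 + (comb d' fun i => W i 0 0) 2| ≤ 1 / 100 := by
    refine (abs_add_le _ _).trans ?_
    norm_num at hd hd'
    linarith
  have m5 := amul m4 m3
  refine (pi_norm_le_iff_of_nonneg (by positivity)).2 fun i => ?_
  rw [Real.norm_eq_abs, abs_le, h0, h0']
  simp only [comb, Pi.sub_apply, Pi.add_apply, Pi.smul_apply, smul_eq_mul] at *
  fin_cases i
  · simp [shoot] at l0 ⊢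
    constructor <;> linarith [l0.1, l0.2, c2.1, c2.2]
  · simp [shoot] at l1 ⊢
    constructor <;> linarith [l1.1, l1.2, c9.1, c9.2]
  · simp [shoot] at l2 ⊢
    constructor <;> linarith [l2.1, l2.2, c3.1, c3.2, m5.1, m5.2]

theorem start {u : ℝ → E} (hu : Sol u) (h0 : u 0 = U 0 0) :
    ‖shoot (u 0) (u 3)‖ ≤ 1 / 2 * (1 / 10 ^ 15) := by
  have h := A.close hu (j := 11) (by norm_num) (t := 1) (by norm_num)
  rw [time_end, ← A.cU 11 (by norm_num), h0, sub_self, norm_zero, zero_add] at h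
  have hc : ∀ i, |u 3 i - U 12 0 i| ≤ 531441 * (1 / 10 ^ 22) := fun i =>
    (norm_le_pi_norm _ i).trans h
  have c2 := abs_le.1 (hc 2)
  have c9 := abs_le.1 (hc 9)
  have c3 := abs_le.1 (hc 3)
  have r0 := abs_le.1 A.r0
  have r1 := abs_le.1 A.r1
  have r2 := abs_le.1 A.r2
  refine (pi_norm_le_iff_of_nonneg (by positivity)).2 fun i => ?_
  rw [Real.norm_eq_abs, abs_le, h0]
  norm_num at c2 c9 c3 r0 r1 r2
  fin_cases i
  · simp only [shoot]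
    norm_num
    constructor <;> linarith [r0.1, r0.2, c2.1, c2.2]
  · simp only [shoot]
    norm_num
    constructor <;> linarith [r1.1, r1.2, c9.1, c9.2]
  · simp only [shoot]
    norm_num
    constructor <;> linarith [r2.1, r2.2, c3.1, c3.2]

theorem exists_zero : ∃ (u : ℝ → E) (d : Fin 3 → ℝ), Sol u ∧ ‖d‖ ≤ 1 / 10 ^ 15 ∧
    (u 0 = U 0 0 + comb d fun i => W i 0 0) ∧ shoot (u 0) (u 3) = 0 := by
  choose u h0 hu using fun d : Fin 3 → ℝ => exists_sol (U 0 0 + comb d fun i => W i 0 0)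
  let T : (Fin 3 → ℝ) → Fin 3 → ℝ := fun d => d - shoot (u d 0) (u d 3)
  have z : ‖(0 : Fin 3 → ℝ)‖ ≤ 1 / 10 ^ 15 := by simp
  have hT0 : ‖T 0‖ ≤ 1 / 2 * (1 / 10 ^ 15) := by
    have := A.start (hu 0) (by rw [h0]; simp [comb])
    simpa only [T, zero_sub, norm_neg] using this
  have hm : MapsTo T (closedBall 0 (1 / 10 ^ 15)) (closedBall 0 (1 / 10 ^ 15)) := by
    intro d hd
    rw [mem_closedBall_zero_iff] at hd ⊢
    have h1 : ‖T d - T 0‖ ≤ 1 / 2 * ‖d - 0‖ := A.lip (hu d) (hu 0) hd z (h0 d) (h0 0)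
    have h2 := norm_le_insert' (T d) (T 0)
    rw [sub_zero] at h1
    linarith
  have hc : ContractingWith (1 / 2 : NNReal) (hm.restrict T _ _) := by
    refine ⟨by norm_num, LipschitzWith.of_dist_le_mul fun d d' => ?_⟩
    have := A.lip (hu d) (hu d') (mem_closedBall_zero_iff.1 d.2) (mem_closedBall_zero_iff.1 d'.2)
      (h0 d) (h0 d')
    rw [Subtype.dist_eq, Subtype.dist_eq, dist_eq_norm, dist_eq_norm]
    simpa using this
  obtain ⟨d, hd, hf, -⟩ := ContractingWith.exists_fixedPoint' isClosed_closedBall.isComplete hm hc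
    (mem_closedBall_zero_iff.2 z) (edist_ne_top _ _)
  exact ⟨u d, d, hu d, mem_closedBall_zero_iff.1 hd, h0 d, sub_eq_self.1 hf⟩

theorem exists_loop : ∃ u : ℝ → E,
    (∀ s ∈ Icc (-3 : ℝ) 3, HasDerivAt u (B (u s) (u s)) s ∧ u (-s) = sg * u s) ∧
    u 0 0 = 0 ∧ u 0 1 = 1 ∧ u 0 3 = 0 ∧ u 0 6 = 0 ∧ u 0 7 = 1 ∧ u 0 5 < 0 ∧ u 3 2 = 0 ∧ u 3 9 = 0 ∧
    4 * u 3 3 = u 0 2 ^ 2 - 2 * u 0 4 ∧ 0 < u 3 3 ∧ u 3 1 < 0 := by
  obtain ⟨u, d, hu, hd, h0, hz⟩ := A.exists_zero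
  obtain ⟨a0, a1, a3, a6, a7, a9⟩ := A.iW 0
  obtain ⟨b0, b1, b3, b6, b7, b9⟩ := A.iW 1
  obtain ⟨c0, c1, c3, c6, c7, c9⟩ := A.iW 2
  have u0 : u 0 0 = 0 := by simp [h0, comb, a0, b0, c0, A.i0]
  have u1 : u 0 1 = 1 := by simp [h0, comb, a1, b1, c1, A.i1]
  have u3 : u 0 3 = 0 := by simp [h0, comb, a3, b3, c3, A.i3]
  have u6 : u 0 6 = 0 := by simp [h0, comb, a6, b6, c6, A.i6]
  have u7 : u 0 7 = 1 := by simp [h0, comb, a7, b7, c7, A.i7]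
  have u9 : u 0 9 = 0 := by simp [h0, comb, a9, b9, c9, A.i9]
  have hs0 : sg * u 0 = u 0 := by
    funext i
    fin_cases i <;> simp [sg, u0, u3, u6, u9]
  have sub : ∀ s ∈ Icc (-3 : ℝ) 3, s ∈ Ioo (-4 : ℝ) 4 := fun s hs =>
    ⟨by linarith [hs.1], by linarith [hs.2]⟩
  have bpos : ∀ s ∈ Icc (0 : ℝ) 3, Box (u s) := by
    intro s hs
    have h4 : 0 ≤ 4 * s := by linarith [hs.1]
    have f1 := Nat.floor_le h4
    have f2 := Nat.lt_floor_add_one (4 * s)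
    rcases lt_or_ge ⌊4 * s⌋₊ 12 with h | h
    · have := A.boxu hu hd h0 h (t := 4 * s - ⌊4 * s⌋₊) ⟨by linarith, by linarith⟩
      rwa [show ((⌊4 * s⌋₊ : ℝ) + (4 * s - ⌊4 * s⌋₊)) / 4 = s by ring] at this
    · have h' : (12 : ℝ) ≤ ⌊4 * s⌋₊ := by exact_mod_cast h
      have := A.boxu hu hd h0 (j := 11) (by norm_num) (t := 1) (by norm_num)
      rwa [time_end, show (3 : ℝ) = s by linarith [hs.2]] at this
  have ball : ∀ s ∈ Icc (-3 : ℝ) 3, Box (u s) := by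
    intro s hs
    rcases le_total 0 s with h | h
    · exact bpos s ⟨h, hs.2⟩
    · have := hu.symm hs0 (s := -s) ⟨by linarith, by linarith [hs.1]⟩
      rw [neg_neg] at this
      rw [this]
      exact box_sg (bpos _ ⟨by linarith, by linarith [hs.1]⟩)
  have n0 := A.near hu hd h0 (j := 0) (by norm_num) (t := 0) (by norm_num)
  have n3 := A.near hu hd h0 (j := 11) (by norm_num) (t := 1) (by norm_num)
  rw [time_end, ← A.cU 11 (by norm_num)] at n3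
  rw [Nat.cast_zero, add_zero, zero_div] at n0
  have k5 : |u 0 5 - U 0 0 5| ≤ 1 / 10 ^ 8 := (norm_le_pi_norm _ 5).trans n0
  have k3 : |u 3 3 - U 12 0 3| ≤ 1 / 10 ^ 8 := (norm_le_pi_norm _ 3).trans n3
  have k1 : |u 3 1 - U 12 0 1| ≤ 1 / 10 ^ 8 := (norm_le_pi_norm _ 1).trans n3
  rw [abs_le] at k5 k3 k1
  norm_num at k5 k3 k1
  have z0 : u 3 2 = 0 := congrFun hz 0
  have z1 : u 3 9 = 0 := congrFun hz 1
  have z2 : 4 * u 3 3 - u 0 2 ^ 2 + 2 * u 0 4 = 0 := congrFun hz 2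
  refine ⟨u, fun s hs => ⟨?_, hu.symm hs0 (sub s hs)⟩, u0, u1, u3, u6, u7,
    by linarith [A.i5, k5.2], z0, z1, by linarith, by linarith [A.e3, k3.1],
    by linarith [A.e1, k1.2]⟩
  rw [← fh_eq (ball s hs)]
  exact hu s (sub s hs)

end Approx

end Pool.Agent.MP_03af62_an.Eye
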